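import Pool.Agent.H2T.Bounded

/-!
# A finite test set in rank two: an element of large order, algebra
-/

set_option autoImplicit false

namespace Pool.Agent.H2T

open Matrix
open Pool.Agent.H2R (RU M2 SL cm cm_mul cm_one cm_inv cm_det cm_injective)

variable {F : Type*} [Group F]

/-! ### Entries -/

theorem mul_apply2 (X Y : SL) (i j : Fin 2) :
    cm (X * Y) i j = cm X i 0 * cm Y 0 j + cm X i 1 * cm Y 1 j := by
  rw [cm_mul, Matrix.mul_apply, Fin.sum_univ_two]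

theorem inv00 (X : SL) : cm X⁻¹ 0 0 = cm X 1 1 := by
  rw [cm_inv, Matrix.adjugate_fin_two]; rfl

theorem inv01 (X : SL) : cm X⁻¹ 0 1 = - cm X 0 1 := by
  rw [cm_inv, Matrix.adjugate_fin_two]; rfl

theorem inv10 (X : SL) : cm X⁻¹ 1 0 = - cm X 1 0 := by
  rw [cm_inv, Matrix.adjugate_fin_two]; rfl

theorem inv11 (X : SL) : cm X⁻¹ 1 1 = cm X 0 0 := by
  rw [cm_inv, Matrix.adjugate_fin_two]; rfl

theorem det2 (X : SL) : cm X 0 0 * cm X 1 1 - cm X 0 1 * cm X 1 0 = 1 := by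
  have h := cm_det X
  rwa [Matrix.det_fin_two] at h

/-- the diagonal matrices -/
def dg : ℂˣ →* SL where
  toFun z := ⟨!![(z : ℂ), 0; 0, ((z⁻¹ : ℂˣ) : ℂ)], by
    rw [Matrix.det_fin_two]
    simp⟩
  map_one' := by
    apply cm_injective
    rw [cm_one]
    ext i j
    fin_cases i <;> fin_cases j <;> simp [cm]
  map_mul' z w := by
    apply cm_injective
    ext i j
    rw [mul_apply2]
    fin_cases i <;> fin_cases j <;> simp [cm, mul_comm]

theorem cm_dg (z : ℂˣ) : cm (dg z) = !![(z : ℂ), 0; 0, ((z⁻¹ : ℂˣ) : ℂ)] := rfl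

section traces

variable (r : F →* SL) (h : F) (u : ℂˣ) (hh : r h = dg u)

include hh

theorem r_zpow (m : ℤ) : r (h ^ m) = dg (u ^ m) := by rw [map_zpow, hh, map_zpow]

theorem tr_one (x : F) (m : ℤ) : (cm (r (h ^ m * x))).trace =
    cm (r x) 0 0 * (u : ℂ) ^ m + cm (r x) 1 1 * (u : ℂ) ^ (-m) := by
  rw [map_mul, r_zpow r h u hh, Matrix.trace_fin_two, mul_apply2, mul_apply2, cm_dg]
  simp
  ring

theorem tr_two (x y : F) (l : ℤ) : (cm (r (h ^ l * x * (h ^ l * y)))).trace =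
    cm (r x) 0 0 * cm (r y) 0 0 * (u : ℂ) ^ (2 * l) +
      cm (r x) 1 1 * cm (r y) 1 1 * (u : ℂ) ^ (-(2 * l)) +
      (cm (r x) 0 1 * cm (r y) 1 0 + cm (r x) 1 0 * cm (r y) 0 1) := by
  have hu : (u : ℂ) ≠ 0 := u.ne_zero
  rw [map_mul, map_mul, map_mul, r_zpow r h u hh, Matrix.trace_fin_two, mul_apply2, mul_apply2,
    mul_apply2, mul_apply2, mul_apply2, mul_apply2, mul_apply2, mul_apply2, mul_apply2,
    mul_apply2, cm_dg]
  have e1 : (u : ℂ) ^ (2 * l) = (u : ℂ) ^ l * (u : ℂ) ^ l := by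
    rw [two_mul, zpow_add₀ hu]
  have e2 : (u : ℂ) ^ (-(2 * l)) = ((u : ℂ) ^ l)⁻¹ * ((u : ℂ) ^ l)⁻¹ := by
    rw [_root_.zpow_neg, e1, _root_.mul_inv_rev]
  have e3 : (u : ℂ) ^ l * ((u : ℂ) ^ l)⁻¹ = 1 := mul_inv_cancel₀ (zpow_ne_zero _ hu)
  rw [e1, e2]
  simp only [Matrix.of_apply, Matrix.cons_val', Matrix.cons_val_zero, Matrix.cons_val_fin_one,
    Matrix.cons_val_one, Units.val_zpow_eq_zpow_val, Units.val_inv_eq_inv_val]
  linear_combination (cm (r x) 0 1 * cm (r y) 1 0 + cm (r x) 1 0 * cm (r y) 0 1) * e3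

end traces

/-! ### Types -/

/-- triangular type -/
def Dg (X : SL) : Prop := RU (cm X 0 0) ∧ cm X 0 0 * cm X 1 1 = 1

/-- antidiagonal type -/
def Ad (X : SL) : Prop := cm X 0 0 = 0 ∧ cm X 1 1 = 0

theorem Dg.off {X : SL} (h : Dg X) : cm X 0 1 * cm X 1 0 = 0 := by
  linear_combination -det2 X + h.2

theorem Ad.off {X : SL} (h : Ad X) : cm X 0 1 * cm X 1 0 = -1 := by
  linear_combination -det2 X + cm X 1 1 * h.1

/-- the constant term -/
def bt (X Y : SL) : ℂ := cm X 0 1 * cm Y 1 0 + cm X 1 0 * cm Y 0 1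

theorem bt_comm (X Y : SL) : bt X Y = bt Y X := by
  unfold bt
  ring

theorem mix {X Y : SL} (hX : Dg X) (hY : Ad Y) (hZ : Ad (X * Y⁻¹ * X) ∨ Dg (X * Y⁻¹ * X))
    (hb : Dg (X * Y⁻¹ * X) → bt X (X * Y⁻¹ * X) = 0) : cm X 0 1 = 0 ∧ cm X 1 0 = 0 := by
  have hq := hX.off
  have ht := hY.off
  have h00 : cm (X * Y⁻¹ * X) 0 0 =
      -(cm X 0 0 * (cm X 0 1 * cm Y 1 0 + cm Y 0 1 * cm X 1 0)) := by
    rw [mul_apply2, mul_apply2, mul_apply2, inv00, inv01, inv10, inv11, hY.1, hY.2]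
    ring
  have h11 : cm (X * Y⁻¹ * X) 1 1 =
      -(cm X 1 1 * (cm X 0 1 * cm Y 1 0 + cm Y 0 1 * cm X 1 0)) := by
    rw [mul_apply2, mul_apply2, mul_apply2, inv00, inv01, inv10, inv11, hY.1, hY.2]
    ring
  have h01 : cm (X * Y⁻¹ * X) 0 1 = -(cm X 0 1 ^ 2 * cm Y 1 0) - cm Y 0 1 := by
    rw [mul_apply2, mul_apply2, mul_apply2, inv00, inv01, inv10, inv11, hY.1, hY.2]
    linear_combination (-cm Y 0 1) * hX.2
  have h10 : cm (X * Y⁻¹ * X) 1 0 = -cm Y 1 0 - cm X 1 0 ^ 2 * cm Y 0 1 := by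
    rw [mul_apply2, mul_apply2, mul_apply2, inv00, inv01, inv10, inv11, hY.1, hY.2]
    linear_combination (-cm Y 1 0) * hX.2
  have hκ : cm X 0 1 * cm Y 1 0 + cm Y 0 1 * cm X 1 0 = 0 := by
    rcases hZ with h | h
    · have h1 := h.1
      rw [h00, neg_eq_zero, mul_eq_zero] at h1
      exact h1.resolve_left hX.1.ne_zero
    · have h1 := hb h
      unfold bt at h1
      rw [h01, h10] at h1
      linear_combination -h1 - (cm X 1 0 * cm Y 0 1 + cm X 0 1 * cm Y 1 0) * hq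
  have hY01 : cm Y 0 1 ≠ 0 := by
    intro h
    rw [h, zero_mul] at ht
    exact one_ne_zero (neg_eq_zero.1 ht.symm)
  have hY10 : cm Y 1 0 ≠ 0 := by
    intro h
    rw [h, mul_zero] at ht
    exact one_ne_zero (neg_eq_zero.1 ht.symm)
  have h1 : cm X 0 1 = 0 := by
    have h2 : cm X 0 1 ^ 2 * cm Y 1 0 = 0 := by
      linear_combination (cm X 0 1) * hκ - cm Y 0 1 * hq
    rcases mul_eq_zero.1 h2 with h3 | h3
    · exact pow_eq_zero_iff (two_ne_zero) |>.1 h3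
    · exact absurd h3 hY10
  refine ⟨h1, ?_⟩
  rw [h1, zero_mul, zero_add] at hκ
  exact (mul_eq_zero.1 hκ).resolve_left hY01

/-! ### Subgroups -/

/-- upper triangular matrices with roots of unity on the diagonal -/
def Up : Subgroup SL where
  carrier := {X | cm X 1 0 = 0 ∧ RU (cm X 0 0)}
  mul_mem' := by
    rintro X Y ⟨h1, h2⟩ ⟨h3, h4⟩
    refine ⟨?_, ?_⟩
    · rw [mul_apply2, h1, h3, zero_mul, mul_zero, add_zero]
    · rw [mul_apply2, h3, mul_zero, add_zero]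
      exact h2.mul h4
  one_mem' := by
    refine ⟨?_, ?_⟩
    · rw [cm_one]; rfl
    · rw [cm_one]; exact RU.one
  inv_mem' := by
    rintro X ⟨h1, h2⟩
    have hd := det2 X
    rw [h1, mul_zero, sub_zero] at hd
    refine ⟨?_, ?_⟩
    · rw [inv10, h1, neg_zero]
    · rw [inv00, eq_inv_of_mul_eq_one_right hd]
      exact h2.inv

/-- lower triangular matrices with roots of unity on the diagonal -/
def Lo : Subgroup SL where
  carrier := {X | cm X 0 1 = 0 ∧ RU (cm X 0 0)}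
  mul_mem' := by
    rintro X Y ⟨h1, h2⟩ ⟨h3, h4⟩
    refine ⟨?_, ?_⟩
    · rw [mul_apply2, h1, h3, zero_mul, mul_zero, add_zero]
    · rw [mul_apply2, h1, zero_mul, add_zero]
      exact h2.mul h4
  one_mem' := by
    refine ⟨?_, ?_⟩
    · rw [cm_one]; rfl
    · rw [cm_one]; exact RU.one
  inv_mem' := by
    rintro X ⟨h1, h2⟩
    have hd := det2 X
    rw [h1, zero_mul, sub_zero] at hd
    refine ⟨?_, ?_⟩
    · rw [inv01, h1, neg_zero]
    · rw [inv00, eq_inv_of_mul_eq_one_right hd]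
      exact h2.inv

/-- monomial matrices -/
def Mo (s : ℂˣ) : Subgroup SL where
  carrier := {X | (cm X 0 1 = 0 ∧ cm X 1 0 = 0 ∧ RU (cm X 0 0)) ∨
    (cm X 0 0 = 0 ∧ cm X 1 1 = 0 ∧ RU ((s : ℂ) * cm X 0 1))}
  mul_mem' := by
    rintro X Y (⟨h1, h2, h3⟩ | ⟨h1, h2, h3⟩) (⟨k1, k2, k3⟩ | ⟨k1, k2, k3⟩)
    · refine Or.inl ⟨?_, ?_, ?_⟩
      · rw [mul_apply2, h1, k1]; ring
      · rw [mul_apply2, h2, k2]; ring
      · rw [mul_apply2, h1, zero_mul, add_zero]
        exact h3.mul k3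
    · refine Or.inr ⟨?_, ?_, ?_⟩
      · rw [mul_apply2, h1, k1]; ring
      · rw [mul_apply2, h2, k2]; ring
      · rw [mul_apply2, h1, zero_mul, add_zero]
        have := h3.mul k3
        have e : cm X 0 0 * ((s : ℂ) * cm Y 0 1) = (s : ℂ) * (cm X 0 0 * cm Y 0 1) := by ring
        rwa [e] at this
    · refine Or.inr ⟨?_, ?_, ?_⟩
      · rw [mul_apply2, h1, k2]; ring
      · rw [mul_apply2, h2, k1]; ring
      · have hd := det2 Y
        rw [k1, zero_mul, sub_zero] at hd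
        rw [mul_apply2, h1, zero_mul, zero_add, eq_inv_of_mul_eq_one_right hd, ← mul_assoc]
        exact h3.mul k3.inv
    · refine Or.inl ⟨?_, ?_, ?_⟩
      · rw [mul_apply2, h1, k2]; ring
      · rw [mul_apply2, h2, k1]; ring
      · have hd := det2 Y
        rw [k1, zero_mul, zero_sub] at hd
        rw [mul_apply2, h1, zero_mul, zero_add]
        have hs : (s : ℂ) ≠ 0 := s.ne_zero
        have h01 : cm Y 0 1 ≠ 0 := by
          intro h
          rw [h, zero_mul, neg_zero] at hd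
          exact zero_ne_one hd
        have e : cm X 0 1 * cm Y 1 0 = -1 * (((s : ℂ) * cm X 0 1) * ((s : ℂ) * cm Y 0 1)⁻¹) := by
          field_simp
          linear_combination (-cm X 0 1) * hd
        rw [e]
        exact RU.mul ⟨2, two_pos, by norm_num⟩ (h3.mul k3.inv)
  one_mem' := by
    refine Or.inl ⟨?_, ?_, ?_⟩
    · rw [cm_one]; rfl
    · rw [cm_one]; rfl
    · rw [cm_one]; exact RU.one
  inv_mem' := by
    rintro X (⟨h1, h2, h3⟩ | ⟨h1, h2, h3⟩)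
    · have hd := det2 X
      rw [h1, zero_mul, sub_zero] at hd
      refine Or.inl ⟨?_, ?_, ?_⟩
      · rw [inv01, h1, neg_zero]
      · rw [inv10, h2, neg_zero]
      · rw [inv00, eq_inv_of_mul_eq_one_right hd]
        exact h3.inv
    · refine Or.inr ⟨?_, ?_, ?_⟩
      · rw [inv00, h2]
      · rw [inv11, h1]
      · rw [inv01]
        have e : (s : ℂ) * -cm X 0 1 = -1 * ((s : ℂ) * cm X 0 1) := by ring
        rw [e]
        exact RU.mul ⟨2, two_pos, by norm_num⟩ h3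

theorem T_of_Up {X : SL} (h : X ∈ Up) : T (cm X).trace := by
  obtain ⟨h1, h2⟩ := h
  have hd := det2 X
  rw [h1, mul_zero, sub_zero] at hd
  exact ⟨cm X 0 0, h2, by rw [Matrix.trace_fin_two, eq_inv_of_mul_eq_one_right hd]⟩

theorem T_of_Lo {X : SL} (h : X ∈ Lo) : T (cm X).trace := by
  obtain ⟨h1, h2⟩ := h
  have hd := det2 X
  rw [h1, zero_mul, sub_zero] at hd
  exact ⟨cm X 0 0, h2, by rw [Matrix.trace_fin_two, eq_inv_of_mul_eq_one_right hd]⟩

theorem T_zero : T 0 := by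
  refine ⟨Complex.I, ⟨4, by norm_num, by rw [show (4 : ℕ) = 2 * 2 by norm_num, pow_mul, Complex.I_sq]; norm_num⟩, ?_⟩
  rw [Complex.inv_I, add_neg_cancel]

theorem T_of_Mo {s : ℂˣ} {X : SL} (h : X ∈ Mo s) : T (cm X).trace := by
  rcases h with ⟨h1, h2, h3⟩ | ⟨h1, h2, h3⟩
  · exact T_of_Up ⟨h2, h3⟩
  · rw [Matrix.trace_fin_two, h1, h2, add_zero]
    exact T_zero

end Pool.Agent.H2T
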