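import Pool.Agent.H2T.Class

/-!
# No constant term
-/

set_option autoImplicit false

namespace Pool.Agent.H2T

open Pool.Agent.H2R (RU)

theorem RU_pow {z : ℂ} (hz : RU z) (n : ℕ) : RU (z ^ n) := by
  obtain ⟨k, hk, hz⟩ := hz
  refine ⟨k, hk, ?_⟩
  rw [← pow_mul, mul_comm, pow_mul, hz, one_pow]

/-- the eight terms -/
theorem eight : ∃ M : ℕ, 0 < M ∧ ∀ p a q b : ℂ, RU p → RU a → RU q → RU b →
    p + p⁻¹ - a - a⁻¹ - q - q⁻¹ + b + b⁻¹ = 0 → ∀ κ : ℂ,
    (if p ^ M = κ then p else 0) + (if p⁻¹ ^ M = κ then p⁻¹ else 0) -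
      (if a ^ M = κ then a else 0) - (if a⁻¹ ^ M = κ then a⁻¹ else 0) -
      (if q ^ M = κ then q else 0) - (if q⁻¹ ^ M = κ then q⁻¹ else 0) +
      (if b ^ M = κ then b else 0) + (if b⁻¹ ^ M = κ then b⁻¹ else 0) = 0 := by
  obtain ⟨M, hM, h⟩ := class_lemma (U := Fin 8) ![1, 1, -1, -1, -1, -1, 1, 1]
  refine ⟨M, hM, fun p a q b hp ha hq hb hs κ => ?_⟩
  have h1 := h ![p, p⁻¹, a, a⁻¹, q, q⁻¹, b, b⁻¹] (by
    intro u
    fin_cases u
    · exact hp
    · exact hp.inv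
    · exact ha
    · exact ha.inv
    · exact hq
    · exact hq.inv
    · exact hb
    · exact hb.inv) (by
    rw [Fin.sum_univ_eight]
    show (1 : ℂ) * p + 1 * p⁻¹ + -1 * a + -1 * a⁻¹ + -1 * q + -1 * q⁻¹ + 1 * b + 1 * b⁻¹ = 0
    linear_combination hs) κ
  rw [Finset.sum_filter, Fin.sum_univ_eight] at h1
  have h2 : (if p ^ M = κ then (1 : ℂ) * p else 0) + (if p⁻¹ ^ M = κ then 1 * p⁻¹ else 0) +
      (if a ^ M = κ then -1 * a else 0) + (if a⁻¹ ^ M = κ then -1 * a⁻¹ else 0) +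
      (if q ^ M = κ then -1 * q else 0) + (if q⁻¹ ^ M = κ then -1 * q⁻¹ else 0) +
      (if b ^ M = κ then 1 * b else 0) + (if b⁻¹ ^ M = κ then 1 * b⁻¹ else 0) = 0 := h1
  have h3 : ∀ (P : Prop) [Decidable P] (x : ℂ), (if P then 1 * x else 0) = if P then x else 0 :=
    fun P _ x => by rw [one_mul]
  have h4 : ∀ (P : Prop) [Decidable P] (x : ℂ), (if P then -1 * x else 0) =
      -(if P then x else 0) := fun P _ x => by
    split_ifs
    · ring
    · ring
  simp only [h3, h4] at h2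
  linear_combination h2

/-- two values -/
theorem pair : ∃ M : ℕ, 0 < M ∧ ∀ a b β : ℂ, RU a → RU b → T (a + a⁻¹ + β) → T (b + b⁻¹ + β) →
    (a * a) ^ M ≠ 1 → (b * b) ^ M ≠ 1 → a ^ M ≠ b ^ M → (a * b) ^ M ≠ 1 →
    β = 0 ∨ β = -(a + a⁻¹) - (b + b⁻¹) := by
  obtain ⟨M, hM, h8⟩ := eight
  refine ⟨M, hM, fun a b β ha hb hTa hTb haa hbb hab hab' => ?_⟩
  have hai : a⁻¹ ^ M ≠ a ^ M := fun h => haa (by
    rw [mul_pow]
    nth_rewrite 1 [← h]
    rw [← mul_pow, inv_mul_cancel₀ ha.ne_zero, one_pow])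
  have hbi : b⁻¹ ^ M ≠ b ^ M := fun h => hbb (by
    rw [mul_pow]
    nth_rewrite 1 [← h]
    rw [← mul_pow, inv_mul_cancel₀ hb.ne_zero, one_pow])
  have habi : a⁻¹ ^ M ≠ b ^ M := fun h => hab' (by
    rw [mul_pow, ← h, ← mul_pow, mul_inv_cancel₀ ha.ne_zero, one_pow])
  have hbai : b⁻¹ ^ M ≠ a ^ M := fun h => hab' (by
    rw [mul_pow, ← h, ← mul_pow, inv_mul_cancel₀ hb.ne_zero, one_pow])
  -- orient the roots
  have orient : ∀ z : ℂ, T z → ∃ w, RU w ∧ z = w + w⁻¹ ∧ w⁻¹ ^ M ≠ a ^ M := by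
    rintro z ⟨w, hw, hz⟩
    by_cases h : w⁻¹ ^ M = a ^ M
    · refine ⟨w⁻¹, hw.inv, by rw [inv_inv, add_comm]; exact hz, ?_⟩
      rw [inv_inv]
      intro h'
      apply hai
      rw [inv_pow, ← h', ← inv_pow]
      exact h.trans h'.symm
    · exact ⟨w, hw, hz, h⟩
  obtain ⟨p, hp, hpa, hpi⟩ := orient _ hTa
  obtain ⟨q, hq, hqb, hqi⟩ := orient _ hTb
  have hs : p + p⁻¹ - a - a⁻¹ - q - q⁻¹ + b + b⁻¹ = 0 := by
    linear_combination hqb - hpa
  have e1 := h8 p a q b hp ha hq hb hs (a ^ M)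
  have e2 := h8 p a q b hp ha hq hb hs (b ^ M)
  rw [if_neg hpi, if_pos rfl, if_neg hai, if_neg hqi, if_neg hab.symm, if_neg hbai] at e1
  rw [if_neg hab, if_neg habi, if_pos rfl, if_neg hbi] at e2
  by_cases hq1 : q ^ M = a ^ M
  · have hqb1 : q ^ M ≠ b ^ M := fun h => hab (hq1.symm.trans h)
    have hqb2 : q⁻¹ ^ M ≠ b ^ M := fun h => habi (by rw [inv_pow, ← hq1, ← inv_pow]; exact h)
    rw [if_neg hqb1, if_neg hqb2] at e2
    by_cases hp1 : p ^ M = a ^ M
    · have hpb1 : p ^ M ≠ b ^ M := fun h => hab (hp1.symm.trans h)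
      have hpb2 : p⁻¹ ^ M ≠ b ^ M := fun h => habi (by rw [inv_pow, ← hp1, ← inv_pow]; exact h)
      rw [if_neg hpb1, if_neg hpb2] at e2
      exact absurd (by linear_combination e2) hb.ne_zero
    · right
      rw [if_neg hp1, if_pos hq1] at e1
      by_cases hp2 : p ^ M = b ^ M
      · have hp3 : p⁻¹ ^ M ≠ b ^ M := fun h => hbi (by
          rw [inv_pow, ← hp2, ← inv_pow, h, hp2])
        rw [if_pos hp2, if_neg hp3] at e2
        have hpb : p = -b := by linear_combination e2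
        rw [hpb, inv_neg] at hpa
        linear_combination hpa
      · rw [if_neg hp2] at e2
        by_cases hp3 : p⁻¹ ^ M = b ^ M
        · rw [if_pos hp3] at e2
          have hpb : p⁻¹ = -b := by linear_combination e2
          have hpb' : p = -b⁻¹ := by rw [← inv_inv p, hpb, inv_neg]
          rw [hpb, hpb'] at hpa
          linear_combination hpa
        · rw [if_neg hp3] at e2
          exact absurd (by linear_combination e2) hb.ne_zero
  · left
    rw [if_neg hq1] at e1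
    by_cases hp1 : p ^ M = a ^ M
    · rw [if_pos hp1] at e1
      have hpa' : p = a := by linear_combination e1
      rw [hpa'] at hpa
      linear_combination hpa
    · rw [if_neg hp1] at e1
      exact absurd (by linear_combination -e1) ha.ne_zero

theorem thm_BET : St_BET := by
  obtain ⟨M, hM, hpair⟩ := pair
  refine ⟨5040 * M, by positivity, fun u v β hu hv huN hT => ?_⟩
  have hu0 : u ≠ 0 := hu.ne_zero
  have hv0 : v ≠ 0 := hv.ne_zero
  have hui : ∀ i : ℕ, 0 < i → i ≤ 10 → (u ^ (2 * i)) ^ M ≠ 1 := by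
    intro i hi0 hi h
    apply huN
    have hd : 2 * i ∣ 5040 := by
      interval_cases i <;> decide
    obtain ⟨c, hc⟩ := hd
    have : u ^ (5040 * M) = ((u ^ (2 * i)) ^ M) ^ c := by
      rw [← pow_mul, ← pow_mul, hc]
      congr 1
      ring
    rw [this, h, one_pow]
  have hTk : ∀ k : ℕ, k ≤ 5 → T (v * u ^ (2 * k) + (v * u ^ (2 * k))⁻¹ + β) := by
    intro k hk
    have h1 := hT k (by positivity) (by exact_mod_cast hk)
    have h2 : u ^ (2 * (k : ℤ)) = u ^ (2 * k) := by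
      rw [← zpow_natCast]
      norm_cast
    rw [mul_inv, ← h2, ← zpow_neg]
    exact h1
  have hne : ∀ k l : ℕ, k < l → l ≤ k + 10 → (v * u ^ (2 * k)) ^ M ≠ (v * u ^ (2 * l)) ^ M := by
    intro k l hkl hl h
    apply hui (l - k) (by omega) (by omega)
    have h1 : v * u ^ (2 * l) = v * u ^ (2 * k) * u ^ (2 * (l - k)) := by
      rw [mul_assoc, ← pow_add]
      congr 2
      omega
    rw [h1, mul_pow (v * u ^ (2 * k)) (u ^ (2 * (l - k)))] at h
    have h2 : (v * u ^ (2 * k)) ^ M ≠ 0 := pow_ne_zero _ (mul_ne_zero hv0 (pow_ne_zero _ hu0))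
    exact (mul_left_cancel₀ h2 (by rw [mul_one]; exact h)).symm
  -- a triple
  have triple : ∀ s : ℕ, s ≤ 3 →
      (∀ i : ℕ, 2 * s ≤ i → i ≤ 2 * s + 4 → (v ^ 2 * u ^ (2 * i)) ^ M ≠ 1) → β = 0 := by
    intro s hs hp
    have hprod : ∀ k l : ℕ, s ≤ k → k ≤ s + 2 → s ≤ l → l ≤ s + 2 →
        ((v * u ^ (2 * k)) * (v * u ^ (2 * l))) ^ M ≠ 1 := by
      intro k l h1 h2 h3 h4 h
      apply hp (k + l) (by omega) (by omega)
      rw [← h]
      congr 1
      rw [mul_add, pow_add]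
      ring
    have hRU : ∀ k : ℕ, RU (v * u ^ (2 * k)) := fun k => hv.mul (RU_pow hu _)
    by_contra hβ
    have h1 := (hpair (v * u ^ (2 * s)) (v * u ^ (2 * (s + 1))) β (hRU _) (hRU _)
      (hTk s (by omega)) (hTk (s + 1) (by omega)) (hprod _ _ (by omega) (by omega) (by omega)
      (by omega)) (hprod _ _ (by omega) (by omega) (by omega) (by omega))
      (hne _ _ (by omega) (by omega)) (hprod _ _ (by omega) (by omega) (by omega)
      (by omega))).resolve_left hβ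
    have h2 := (hpair (v * u ^ (2 * s)) (v * u ^ (2 * (s + 2))) β (hRU _) (hRU _)
      (hTk s (by omega)) (hTk (s + 2) (by omega)) (hprod _ _ (by omega) (by omega) (by omega)
      (by omega)) (hprod _ _ (by omega) (by omega) (by omega) (by omega))
      (hne _ _ (by omega) (by omega)) (hprod _ _ (by omega) (by omega) (by omega)
      (by omega))).resolve_left hβ
    have h3 := hne (s + 1) (s + 2) (by omega) (by omega)
    have h4 := hprod (s + 1) (s + 2) (by omega) (by omega) (by omega) (by omega)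
    set b := v * u ^ (2 * (s + 1)) with hb
    set c := v * u ^ (2 * (s + 2)) with hc
    have hb0 : b ≠ 0 := (hRU (s + 1)).ne_zero
    have hc0 : c ≠ 0 := (hRU (s + 2)).ne_zero
    have h5 : b + b⁻¹ = c + c⁻¹ := by linear_combination h1 - h2
    have h6 : (b - c) * (b * c - 1) = 0 := by
      field_simp at h5
      linear_combination h5
    rcases mul_eq_zero.1 h6 with h7 | h7
    · exact h3 (by rw [sub_eq_zero.1 h7])
    · exact h4 (by rw [sub_eq_zero.1 h7, one_pow])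
  by_cases hp : ∀ i : ℕ, 2 * 0 ≤ i → i ≤ 2 * 0 + 4 → (v ^ 2 * u ^ (2 * i)) ^ M ≠ 1
  · exact triple 0 (by omega) hp
  · push Not at hp
    obtain ⟨i, -, hi, h1⟩ := hp
    refine triple 3 (by omega) fun j hj1 hj2 h2 => ?_
    apply hui (j - i) (by omega) (by omega)
    have h3 : v ^ 2 * u ^ (2 * j) = v ^ 2 * u ^ (2 * i) * u ^ (2 * (j - i)) := by
      rw [mul_assoc, ← pow_add]
      congr 2
      omega
    rw [h3, mul_pow, h1, one_mul] at h2
    exact h2

end Pool.Agent.H2T
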