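import Pool.Agent.H2T.Moves

/-!
# A finite test set in rank two: the bounded case

If the traces of the quotients of the points reached with `K` moves are in a finite set with fewer than
`K` matrices of traces then all of them are.
-/

set_option autoImplicit false

namespace Pool.Agent.H2T

open Matrix
open Pool.Agent.H2R (M2 SL cm cm_mul cm_one cm_inv BM BM_apply BM_cm)

variable {F : Type*} [Group F]

/-- the trace of a quotient -/
noncomputable def tq (r : F →* SL) (x y : F) : ℂ := (cm (r (x⁻¹ * y))).trace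

theorem tr_mul (X Y : SL) : (cm (X * Y)).trace =
    (cm X).trace * (cm Y).trace - (cm (X * Y⁻¹)).trace := by
  have h := BM_cm X Y
  rw [BM_apply, ← cm_mul] at h
  rw [← h]
  ring

theorem tr_inv (X : SL) : (cm X⁻¹).trace = (cm X).trace := by
  have h := tr_mul 1 X
  rw [one_mul, one_mul, cm_one, Matrix.trace_one] at h
  simp only [Fintype.card_fin, Nat.cast_ofNat] at h
  linear_combination h

theorem tq_comm (r : F →* SL) (x y : F) : tq r x y = tq r y x := by
  unfold tq
  rw [← tr_inv, ← map_inv, _root_.mul_inv_rev, inv_inv]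

theorem tq_self (r : F →* SL) (x : F) : tq r x x = 2 := by
  unfold tq
  rw [inv_mul_cancel, map_one, cm_one, Matrix.trace_one]
  simp

theorem tq_refl (r : F →* SL) (x a b : F) :
    tq r x (b * a⁻¹ * b) = tq r x b * tq r a b - tq r x a := by
  unfold tq
  have e1 : x⁻¹ * (b * a⁻¹ * b) = (x⁻¹ * b) * (a⁻¹ * b) := by group
  have e2 : (x⁻¹ * b) * (a⁻¹ * b)⁻¹ = x⁻¹ * a := by group
  rw [e1, map_mul, tr_mul, ← map_inv, ← map_mul, e2]

theorem tq_mv (r : F →* SL) (x : F) (k : ℕ) (A : ℕ → F) (j : ℕ) : tq r x (mv k A j) =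
    if j = k then tq r x (A (k + 1)) else
      if j = k + 1 then tq r x (A (k + 1)) * tq r (A k) (A (k + 1)) - tq r x (A k)
      else tq r x (A j) := by
  split_ifs with h h'
  · rw [h, mv_fst]
  · rw [h', mv_snd, tq_refl]
  · rw [mv_ne _ _ h h']

theorem tq_vm (r : F →* SL) (x : F) (k : ℕ) (A : ℕ → F) (j : ℕ) : tq r x (vm k A j) =
    if j = k then tq r x (A k) * tq r (A (k + 1)) (A k) - tq r x (A (k + 1)) else
      if j = k + 1 then tq r x (A k) else tq r x (A j) := by
  split_ifs with h h'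
  · rw [h, vm_fst, tq_refl]
  · rw [h', vm_snd]
  · rw [vm_ne _ _ h h']

/-- the matrix of the traces -/
noncomputable def dat (n : ℕ) (r : F →* SL) (A : ℕ → F) : Fin (n + 1) → Fin (n + 1) → ℂ :=
  fun i j => tq r (A i) (A j)

theorem dat_apply {n : ℕ} {r : F →* SL} {A B : ℕ → F} (h : dat n r A = dat n r B) {i j : ℕ}
    (hi : i ≤ n) (hj : j ≤ n) : tq r (A i) (A j) = tq r (B i) (B j) :=
  congrFun (congrFun h ⟨i, by omega⟩) ⟨j, by omega⟩

theorem dat_mv {n : ℕ} {r : F →* SL} {A B : ℕ → F} (h : dat n r A = dat n r B) {k : ℕ}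
    (hk : k < n) : dat n r (mv k A) = dat n r (mv k B) := by
  have h1 : ∀ i ≤ n, ∀ j ≤ n, tq r (A i) (mv k A j) = tq r (B i) (mv k B j) := by
    intro i hi j hj
    rw [tq_mv, tq_mv]
    split_ifs with h2 h3
    · exact dat_apply h hi (by omega)
    · rw [dat_apply h hi (j := k + 1) (by omega), dat_apply h (i := k) (j := k + 1) (by omega)
        (by omega), dat_apply h hi (j := k) (by omega)]
    · exact dat_apply h hi hj
  funext i j
  have hj := j.2
  show tq r (mv k A i) (mv k A j) = tq r (mv k B i) (mv k B j)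
  rw [tq_mv, tq_mv]
  have h2 : ∀ l ≤ n, tq r (mv k A i) (A l) = tq r (mv k B i) (B l) := by
    intro l hl
    rw [tq_comm r _ (A l), tq_comm r _ (B l)]
    exact h1 l hl i (by omega)
  split_ifs with h3 h4
  · exact h2 _ (by omega)
  · rw [h2 (k + 1) (by omega), dat_apply h (i := k) (j := k + 1) (by omega) (by omega),
      h2 k (by omega)]
  · exact h2 _ (by omega)

theorem dat_vm {n : ℕ} {r : F →* SL} {A B : ℕ → F} (h : dat n r A = dat n r B) {k : ℕ}
    (hk : k < n) : dat n r (vm k A) = dat n r (vm k B) := by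
  have h1 : ∀ i ≤ n, ∀ j ≤ n, tq r (A i) (vm k A j) = tq r (B i) (vm k B j) := by
    intro i hi j hj
    rw [tq_vm, tq_vm]
    split_ifs with h2 h3
    · rw [dat_apply h hi (j := k) (by omega), dat_apply h (i := k + 1) (j := k) (by omega)
        (by omega), dat_apply h hi (j := k + 1) (by omega)]
    · exact dat_apply h hi (by omega)
    · exact dat_apply h hi hj
  funext i j
  have hj := j.2
  show tq r (vm k A i) (vm k A j) = tq r (vm k B i) (vm k B j)
  rw [tq_vm, tq_vm]
  have h2 : ∀ l ≤ n, tq r (vm k A i) (A l) = tq r (vm k B i) (B l) := by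
    intro l hl
    rw [tq_comm r _ (A l), tq_comm r _ (B l)]
    exact h1 l hl i (by omega)
  split_ifs with h3 h4
  · rw [h2 k (by omega), dat_apply h (i := k + 1) (j := k) (by omega) (by omega),
      h2 (k + 1) (by omega)]
  · exact h2 _ (by omega)
  · exact h2 _ (by omega)

/-- Stability. -/
theorem stable {Y : Type*} (n : ℕ) (A : ℕ → F) (E : (ℕ → F) → Y)
    (hmv : ∀ k < n, ∀ B C, E B = E C → E (mv k B) = E (mv k C))
    (hvm : ∀ k < n, ∀ B C, E B = E C → E (vm k B) = E (vm k C))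
    (Φ : Set Y) (hΦ : Φ.Finite) (h : ∀ B ∈ S n A Φ.ncard, E B ∈ Φ) :
    ∀ d, ∀ B ∈ S n A d, E B ∈ Φ := by
  let D : ℕ → Set Y := fun d => E '' S n A d
  have hDmono : ∀ d, D d ⊆ D (d + 1) := fun d => Set.image_mono fun B hB => S_succ hB
  have hDfin : ∀ d, (D d).Finite := fun d => (S_finite n A d).image _
  have hex : ∃ d < Φ.ncard, D (d + 1) ⊆ D d := by
    by_contra hcon
    push Not at hcon
    have h1 : ∀ d ≤ Φ.ncard, d + 1 ≤ (D d).ncard := by
      intro d hd
      induction d with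
      | zero =>
        rw [zero_add]
        exact (Set.ncard_pos (hDfin 0)).2 ⟨E A, A, self_mem_S n A 0, rfl⟩
      | succ d ih =>
        have h2 := ih (by omega)
        have h3 : (D d).ncard < (D (d + 1)).ncard :=
          Set.ncard_lt_ncard ⟨hDmono d, hcon d (by omega)⟩ (hDfin _)
        omega
    have h2 : D Φ.ncard ⊆ Φ := by
      rintro _ ⟨B, hB, rfl⟩
      exact h B hB
    have h3 := Set.ncard_le_ncard h2 hΦ
    have h4 := h1 _ le_rfl
    omega
  obtain ⟨d, hd, hst⟩ := hex
  have hall : ∀ e, D e ⊆ D d := by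
    intro e
    by_cases hed : e ≤ d
    · rintro _ ⟨B, hB, rfl⟩
      exact ⟨B, S_mono hB hed, rfl⟩
    · obtain ⟨m, rfl⟩ := Nat.exists_eq_add_of_le (le_of_not_ge hed)
      clear hed
      induction m with
      | zero => exact le_rfl
      | succ m ih =>
        rintro _ ⟨B, hB, rfl⟩
        rcases S_cases (show B ∈ S n A (d + m + 1) from hB) with h1 | ⟨C, hC, k, hk, rfl | rfl⟩
        · exact ih ⟨B, h1, rfl⟩
        · obtain ⟨C', hC', he⟩ := ih ⟨C, hC, rfl⟩
          apply hst
          exact ⟨mv k C', S_mv hC' hk, hmv k hk _ _ he⟩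
        · obtain ⟨C', hC', he⟩ := ih ⟨C, hC, rfl⟩
          apply hst
          exact ⟨vm k C', S_vm hC' hk, hvm k hk _ _ he⟩
  intro e B hB
  obtain ⟨C, hC, he⟩ := hall e ⟨B, hB, rfl⟩
  rw [← he]
  exact h C (S_mono hC hd.le)

/-- traces of elements of order dividing `N` -/
def TN (N : ℕ) : Set ℂ := {z | ∃ w : ℂ, w ^ N = 1 ∧ z = w + w⁻¹}

theorem TN_finite {N : ℕ} (hN : 0 < N) : (TN N).Finite := by
  have h1 : {w : ℂ | w ^ N = 1}.Finite := by
    have : {w : ℂ | w ^ N = 1} = ((Polynomial.nthRoots N (1 : ℂ)).toFinset : Set ℂ) := by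
      ext w
      simp [Polynomial.mem_nthRoots hN]
    rw [this]
    exact Finset.finite_toSet _
  refine (h1.image fun w => w + w⁻¹).subset ?_
  rintro z ⟨w, hw, rfl⟩
  exact ⟨w, hw, rfl⟩

/-- the matrices with entries in `TN N` -/
def Phi (n N : ℕ) : Set (Fin (n + 1) → Fin (n + 1) → ℂ) := {f | ∀ i j, f i j ∈ TN N}

theorem Phi_finite (n : ℕ) {N : ℕ} (hN : 0 < N) : (Phi n N).Finite := by
  have h1 : (Set.pi Set.univ fun _ : Fin (n + 1) =>
      (Set.pi Set.univ fun _ : Fin (n + 1) => TN N)).Finite :=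
    Set.Finite.pi fun _ => Set.Finite.pi fun _ => TN_finite hN
  refine h1.subset fun f hf i _ j _ => hf i j

/-- **The bounded case.** -/
theorem bounded {n N : ℕ} (hN : 0 < N) (r : F →* SL) (A : ℕ → F)
    (h : ∀ B ∈ S n A (Phi n N).ncard, ∀ i j, i < j → j ≤ n → tq r (B i) (B j) ∈ TN N) :
    ∀ d, ∀ B ∈ S n A d, ∀ i ≤ n, ∀ j ≤ n, tq r (B i) (B j) ∈ TN N := by
  have h2 : (2 : ℂ) ∈ TN N := ⟨1, one_pow N, by norm_num⟩
  have key := stable n A (dat n r) (fun k hk B C he => dat_mv he hk)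
    (fun k hk B C he => dat_vm he hk) (Phi n N) (Phi_finite n hN) (by
      intro B hB i j
      show tq r (B i) (B j) ∈ TN N
      rcases lt_trichotomy i.1 j.1 with h1 | h1 | h1
      · exact h B hB _ _ h1 (by omega)
      · rw [h1, tq_self]
        exact h2
      · rw [tq_comm]
        exact h B hB _ _ h1 (by omega))
  intro d B hB i hi j hj
  exact key d B hB ⟨i, by omega⟩ ⟨j, by omega⟩

end Pool.Agent.H2T
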