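import Pool.Agent.H2T.Stm
import Pool.Agent.Helper9.RootsOfUnity

/-!
# The class lemma for vanishing sums of roots of unity
-/

set_option autoImplicit false

namespace Pool.Agent.H2T

open Finset
open Pool.Agent.H2R (RU)

/-- **Class lemma.** A vanishing sum of roots of unity with fixed coefficients vanishes on every
class of the relation `ζ u ^ M = ζ v ^ M`. -/
theorem class_lemma {U : Type} [Fintype U] [DecidableEq U] (c : U → ℂ) : ∃ M : ℕ, 0 < M ∧
    ∀ ζ : U → ℂ, (∀ u, RU (ζ u)) → ∑ u, c u * ζ u = 0 →
      ∀ κ : ℂ, ∑ u ∈ univ.filter (fun u => ζ u ^ M = κ), c u * ζ u = 0 := by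
  classical
  choose m hm0 hm using fun J : Finset U =>
    Helper9.exists_order_bound (U := J) (fun u => c u)
  refine ⟨∏ J : Finset U, m J, Finset.prod_pos fun J _ => hm0 J, fun ζ hζ hsum κ => ?_⟩
  set M : ℕ := ∏ J : Finset U, m J with hM
  have hdvd : ∀ J, m J ∣ M := fun J => Finset.dvd_prod_of_mem m (mem_univ J)
  -- the sum over a minimal vanishing set
  have key : ∀ (n : ℕ) (J : Finset U), J.card = n → ∑ u ∈ J, c u * ζ u = 0 →
      ∑ u ∈ J.filter (fun u => ζ u ^ M = κ), c u * ζ u = 0 := by
    intro n
    induction n using Nat.strong_induction_on with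
    | _ n ih =>
      intro J hJ hsumJ
      rcases J.eq_empty_or_nonempty with rfl | hne
      · rw [filter_empty, sum_empty]
      -- a minimal nonempty subset with vanishing sum
      obtain ⟨K, hK, hmin⟩ := Finset.exists_min_image
        (J.powerset.filter fun K => K.Nonempty ∧ ∑ u ∈ K, c u * ζ u = 0) Finset.card
        ⟨J, mem_filter.2 ⟨mem_powerset_self J, hne, hsumJ⟩⟩
      obtain ⟨hKJ, hKne, hKsum⟩ := mem_filter.1 hK
      rw [mem_powerset] at hKJ
      have hnd : ∀ J' : Finset K, J'.Nonempty → J' ≠ univ → ∑ u ∈ J', c u * ζ u ≠ 0 := by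
        intro J' hJ' hJu h0
        have hsub : J'.map (Function.Embedding.subtype _) ⊆ K := by
          intro u hu
          obtain ⟨v, -, rfl⟩ := mem_map.1 hu
          exact v.2
        have h1 : ∑ u ∈ J'.map (Function.Embedding.subtype _), c u * ζ u = 0 := by
          rw [sum_map]
          exact h0
        have h2 := hmin _ (mem_filter.2 ⟨mem_powerset.2 (hsub.trans hKJ), hJ'.map, h1⟩)
        rw [card_map] at h2
        have h3 : J'.card < K.card := by
          have h4 := Finset.card_lt_univ_of_notMem (s := J') (x := (by
            have : ∃ x, x ∉ J' := by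
              by_contra h
              push Not at h
              exact hJu (eq_univ_of_forall h)
            exact this.choose)) (by
              have : ∃ x, x ∉ J' := by
                by_contra h
                push Not at h
                exact hJu (eq_univ_of_forall h)
              exact this.choose_spec)
          rwa [Fintype.card_coe] at h4
        omega
      have h5 := hm K (fun u => ζ u) (fun u => hζ u)
        (by
          rw [← hKsum]
          exact (Finset.sum_coe_sort K fun u => c u * ζ u)) hnd
      have h6 : ∀ u ∈ K, ∀ v ∈ K, ζ u ^ M = ζ v ^ M := by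
        intro u hu v hv
        obtain ⟨d, hd⟩ := hdvd K
        rw [hd, pow_mul, pow_mul]
        exact congrArg (· ^ d) (h5 ⟨u, hu⟩ ⟨v, hv⟩)
      have h7 : ∑ u ∈ K.filter (fun u => ζ u ^ M = κ), c u * ζ u = 0 := by
        obtain ⟨v, hv⟩ := hKne
        by_cases hκ : ζ v ^ M = κ
        · rw [filter_true_of_mem fun u hu => (h6 u hu v hv).trans hκ]
          exact hKsum
        · rw [filter_false_of_mem fun u hu h => hκ ((h6 v hv u hu).trans h), sum_empty]
      have h8 : ∑ u ∈ J \ K, c u * ζ u = 0 := by
        have := sum_sdiff hKJ (f := fun u => c u * ζ u)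
        rw [hKsum, hsumJ, add_zero] at this
        exact this
      have h9 : (J \ K).card < n := by
        rw [← hJ]
        exact card_lt_card (sdiff_ssubset hKJ hKne)
      have h10 := ih _ h9 (J \ K) rfl h8
      have h11 : J.filter (fun u => ζ u ^ M = κ) =
          (J \ K).filter (fun u => ζ u ^ M = κ) ∪ K.filter (fun u => ζ u ^ M = κ) := by
        rw [← filter_union, sdiff_union_of_subset hKJ]
      rw [h11, sum_union, h10, h7, add_zero]
      exact disjoint_filter_filter sdiff_disjoint
  exact key _ univ rfl hsum

end Pool.Agent.H2T
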