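import Pool.Agent.H2T.Class

/-!
# The dichotomy
-/

set_option autoImplicit false

namespace Pool.Agent.H2T

open Finset
open Pool.Agent.H2R (RU)

/-- `x` if it is in the class `κ`, otherwise `0` -/
noncomputable def Ec (M : ℕ) (κ x : ℂ) : ℂ := by
  classical exact if x ^ M = κ then x else 0

theorem Ec_pos {M : ℕ} {κ x : ℂ} (h : x ^ M = κ) : Ec M κ x = x := by
  rw [Ec, if_pos h]

theorem Ec_neg {M : ℕ} {κ x : ℂ} (h : x ^ M ≠ κ) : Ec M κ x = 0 := by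
  rw [Ec, if_neg h]

/-- the classes of the eight terms -/
theorem exists_class : ∃ M : ℕ, 0 < M ∧ ∀ u a b c : ℂ, RU u → RU a → RU b → RU c →
    (u + u⁻¹) * (a + a⁻¹) = b + b⁻¹ + (c + c⁻¹) → ∀ κ : ℂ,
      Ec M κ (u * a) + Ec M κ (u * a⁻¹) + Ec M κ (u⁻¹ * a) + Ec M κ (u⁻¹ * a⁻¹) =
        Ec M κ b + Ec M κ b⁻¹ + Ec M κ c + Ec M κ c⁻¹ := by
  classical
  obtain ⟨M, hM, h⟩ := class_lemma (U := Fin 8) ![1, 1, 1, 1, -1, -1, -1, -1]
  refine ⟨M, hM, fun u a b c hu ha hb hc hr κ => ?_⟩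
  have h1 := h ![u * a, u * a⁻¹, u⁻¹ * a, u⁻¹ * a⁻¹, b, b⁻¹, c, c⁻¹] (by
    intro i
    fin_cases i
    · exact hu.mul ha
    · exact hu.mul ha.inv
    · exact hu.inv.mul ha
    · exact hu.inv.mul ha.inv
    · exact hb
    · exact hb.inv
    · exact hc
    · exact hc.inv) (by
    rw [Fin.sum_univ_eight]
    simp only [Matrix.cons_val]
    linear_combination hr) κ
  rw [Finset.sum_filter, Fin.sum_univ_eight] at h1
  simp only [Matrix.cons_val] at h1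
  have e : ∀ (t x : ℂ), (if x ^ M = κ then t * x else 0) = t * Ec M κ x := by
    intro t x
    rw [Ec]
    split_ifs
    · rfl
    · rw [mul_zero]
  simp only [e] at h1
  linear_combination h1

theorem Ec_pair {M : ℕ} {κ x : ℂ} (hx : x ≠ 0) (hκ : κ ^ 2 ≠ 1) :
    (Ec M κ x + Ec M κ x⁻¹ = 0) ∨
    ∃ y, (y = x ∨ y = x⁻¹) ∧ y ^ M = κ ∧ Ec M κ x + Ec M κ x⁻¹ = y := by
  have hX : x ^ M ≠ 0 := pow_ne_zero _ hx
  by_cases h1 : x ^ M = κ
  · right
    refine ⟨x, Or.inl rfl, h1, ?_⟩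
    have h2 : (x⁻¹) ^ M ≠ κ := by
      intro h2
      rw [inv_pow, h1] at h2
      apply hκ
      have h3 : κ ≠ 0 := by rw [← h1]; exact hX
      calc κ ^ 2 = κ * κ⁻¹ := by rw [h2, pow_two]
        _ = 1 := mul_inv_cancel₀ h3
    rw [Ec_pos h1, Ec_neg h2, add_zero]
  · by_cases h2 : (x⁻¹) ^ M = κ
    · exact Or.inr ⟨x⁻¹, Or.inr rfl, h2, by rw [Ec_neg h1, Ec_pos h2, zero_add]⟩
    · exact Or.inl (by rw [Ec_neg h1, Ec_neg h2, add_zero])

theorem add_inv_of {x y : ℂ} (h : y = x ∨ y = x⁻¹) : y + y⁻¹ = x + x⁻¹ := by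
  rcases h with rfl | rfl
  · rfl
  · rw [inv_inv, add_comm]

theorem sq_of {M : ℕ} {x y κ : ℂ} (hx : x ≠ 0) (h : y = x ∨ y = x⁻¹) (hy : y ^ M = κ) :
    (x ^ M) ^ 2 = κ ^ 2 ∨ (x ^ M) ^ 2 * κ ^ 2 = 1 := by
  rcases h with rfl | rfl
  · left
    rw [hy]
  · right
    rw [← hy, inv_pow, ← mul_pow, mul_inv_cancel₀ (pow_ne_zero _ hx), one_pow]

/-- The main case of one relation. -/
theorem one_rel_aux {M : ℕ} {u a b c : ℂ} (hu : RU u) (ha : RU a) (hb : RU b) (hc : RU c)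
    (hr : (u + u⁻¹) * (a + a⁻¹) = b + b⁻¹ + (c + c⁻¹))
    (hE : ∀ κ : ℂ, Ec M κ (u * a) + Ec M κ (u * a⁻¹) + Ec M κ (u⁻¹ * a) + Ec M κ (u⁻¹ * a⁻¹) =
        Ec M κ b + Ec M κ b⁻¹ + Ec M κ c + Ec M κ c⁻¹)
    (hU : (u ^ M) ^ 2 ≠ 1) (hA : (a ^ M) ^ 2 ≠ 1) (hUA : (u ^ M * a ^ M) ^ 2 ≠ 1) :
    (b + b⁻¹ = u * a + (u * a)⁻¹ ∨ b + b⁻¹ = u * a⁻¹ + (u * a⁻¹)⁻¹) ∨
    ((a ^ M) ^ 2 = (u ^ M) ^ 2 ∧
      ((b ^ M) ^ 2 = (u ^ M) ^ 4 ∨ (b ^ M) ^ 2 * (u ^ M) ^ 4 = 1) ∧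
      ((c ^ M) ^ 2 = (u ^ M) ^ 4 ∨ (c ^ M) ^ 2 * (u ^ M) ^ 4 = 1)) := by
  have hu0 := hu.ne_zero
  have ha0 := ha.ne_zero
  have hb0 := hb.ne_zero
  have hc0 := hc.ne_zero
  have hU0 : u ^ M ≠ 0 := pow_ne_zero _ hu0
  have hA0 : a ^ M ≠ 0 := pow_ne_zero _ ha0
  have e1 : (u * a) ^ M = u ^ M * a ^ M := mul_pow _ _ _
  have e2 : (u * a⁻¹) ^ M = u ^ M * (a ^ M)⁻¹ := by rw [mul_pow, inv_pow]
  have e3 : (u⁻¹ * a) ^ M = (u ^ M)⁻¹ * a ^ M := by rw [mul_pow, inv_pow]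
  have e4 : (u⁻¹ * a⁻¹) ^ M = (u ^ M)⁻¹ * (a ^ M)⁻¹ := by rw [mul_pow, inv_pow, inv_pow]
  generalize hUd : u ^ M = U at *
  generalize hAd : a ^ M = A at *
  have n2 : U * A⁻¹ ≠ U * A := by
    intro h
    apply hA
    have h1 := mul_left_cancel₀ hU0 h
    field_simp at h1
    exact h1.symm
  have n3 : U⁻¹ * A ≠ U * A := by
    intro h
    apply hU
    have h1 := mul_right_cancel₀ hA0 h
    field_simp at h1
    exact h1.symm
  have n4 : U⁻¹ * A⁻¹ ≠ U * A := by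
    intro h
    apply hUA
    field_simp at h
    rw [mul_pow]
    exact h.symm
  have hκ := hE (U * A)
  rw [Ec_pos (e1), Ec_neg (by rw [e2]; exact n2), Ec_neg (by rw [e3]; exact n3),
    Ec_neg (by rw [e4]; exact n4), add_zero, add_zero, add_zero, add_assoc (_ + _)] at hκ
  rcases Ec_pair (M := M) hb0 hUA with hB | ⟨y, hy, hyM, hyE⟩
  · rcases Ec_pair (M := M) hc0 hUA with hC | ⟨z, hz, hzM, hzE⟩
    · rw [hB, hC, add_zero] at hκ
      exact absurd hκ (mul_ne_zero hu0 ha0)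
    · rw [hB, hzE, zero_add] at hκ
      have h1 := add_inv_of hz
      left
      right
      rw [← hκ] at h1
      rw [← h1] at hr
      have h2 : b + b⁻¹ = (u + u⁻¹) * (a + a⁻¹) - (u * a + (u * a)⁻¹) := by rw [hr]; ring
      rw [h2]
      field_simp
      ring
  · rcases Ec_pair (M := M) hc0 hUA with hC | ⟨z, hz, hzM, hzE⟩
    · rw [hC, hyE, add_zero] at hκ
      have h1 := add_inv_of hy
      left
      left
      rw [← h1, hκ]
    · right
      have hAU : A ^ 2 = U ^ 2 := by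
        by_contra hne
        have m1 : U * A ≠ U * A⁻¹ := n2.symm
        have m3 : U⁻¹ * A ≠ U * A⁻¹ := by
          intro h
          apply hne
          field_simp at h
          exact h
        have m4 : U⁻¹ * A⁻¹ ≠ U * A⁻¹ := by
          intro h
          apply hU
          have h1 := mul_right_cancel₀ (inv_ne_zero hA0) h
          field_simp at h1
          exact h1.symm
        have m5 : (U * A)⁻¹ ≠ U * A⁻¹ := by
          rw [mul_inv]
          exact m4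
        have m6 : ∀ x w : ℂ, (w = x ∨ w = x⁻¹) → w ^ M = U * A → Ec M (U * A⁻¹) x +
            Ec M (U * A⁻¹) x⁻¹ = 0 := by
          rintro x w (rfl | rfl) hw
          · rw [Ec_neg (by rw [hw]; exact m1), Ec_neg (by rw [inv_pow, hw]; exact m5), add_zero]
          · have hw' : x ^ M = (U * A)⁻¹ := by rw [← hw, inv_pow, inv_inv]
            rw [Ec_neg (by rw [hw']; exact m5), Ec_neg (by rw [hw]; exact m1), add_zero]
        have hκ' := hE (U * A⁻¹)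
        rw [Ec_neg (by rw [e1]; exact m1), Ec_pos e2, Ec_neg (by rw [e3]; exact m3),
          Ec_neg (by rw [e4]; exact m4), add_zero, add_zero, zero_add, add_assoc (_ + _),
          m6 b y hy hyM, m6 c z hz hzM, add_zero] at hκ'
        exact absurd hκ' (mul_ne_zero hu0 (inv_ne_zero ha0))
      have e5 : (U * A) ^ 2 = U ^ 4 := by
        rw [mul_pow, hAU]
        ring
      refine ⟨hAU, ?_, ?_⟩
      · have := sq_of hb0 hy hyM
        rwa [e5] at this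
      · have := sq_of hc0 hz hzM
        rwa [e5] at this

/-- [one relation] the four possibilities -/
def Four (M : ℕ) (u a b c : ℂ) : Prop :=
  (b + b⁻¹ = u * a + (u * a)⁻¹ ∨ b + b⁻¹ = u * a⁻¹ + (u * a⁻¹)⁻¹) ∨
  a + a⁻¹ = 0 ∨
  ((a ^ M) ^ 2 = 1 ∧ (((b ^ M) ^ 2 = (u ^ M) ^ 2 ∨ (b ^ M) ^ 2 * (u ^ M) ^ 2 = 1) ∨
    ((c ^ M) ^ 2 = (u ^ M) ^ 2 ∨ (c ^ M) ^ 2 * (u ^ M) ^ 2 = 1))) ∨
  (((a ^ M) ^ 2 = (u ^ M) ^ 2 ∨ (a ^ M) ^ 2 * (u ^ M) ^ 2 = 1) ∧
    ((b ^ M) ^ 2 = (u ^ M) ^ 4 ∨ (b ^ M) ^ 2 * (u ^ M) ^ 4 = 1) ∧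
    ((c ^ M) ^ 2 = (u ^ M) ^ 4 ∨ (c ^ M) ^ 2 * (u ^ M) ^ 4 = 1))

theorem one_rel {M : ℕ} {u a b c : ℂ} (hu : RU u) (ha : RU a) (hb : RU b) (hc : RU c)
    (hr : (u + u⁻¹) * (a + a⁻¹) = b + b⁻¹ + (c + c⁻¹))
    (hE : ∀ a : ℂ, RU a → (u + u⁻¹) * (a + a⁻¹) = b + b⁻¹ + (c + c⁻¹) → ∀ κ : ℂ,
      Ec M κ (u * a) + Ec M κ (u * a⁻¹) + Ec M κ (u⁻¹ * a) + Ec M κ (u⁻¹ * a⁻¹) =
        Ec M κ b + Ec M κ b⁻¹ + Ec M κ c + Ec M κ c⁻¹)
    (hU : (u ^ M) ^ 2 ≠ 1) (hU4 : (u ^ M) ^ 4 ≠ 1) : Four M u a b c := by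
  have hu0 := hu.ne_zero
  have ha0 := ha.ne_zero
  have hb0 := hb.ne_zero
  have hc0 := hc.ne_zero
  have hU0 : u ^ M ≠ 0 := pow_ne_zero _ hu0
  have hA0 : a ^ M ≠ 0 := pow_ne_zero _ ha0
  by_cases hA : (a ^ M) ^ 2 = 1
  · -- the class of `u a` contains `u a`, `u a⁻¹`
    have e1 : (u * a) ^ M = u ^ M * a ^ M := mul_pow _ _ _
    have hA' : (a ^ M)⁻¹ = a ^ M := by
      rw [inv_eq_of_mul_eq_one_left]
      rw [← pow_two]
      exact hA
    have e2 : (u * a⁻¹) ^ M = u ^ M * a ^ M := by rw [mul_pow, inv_pow, hA']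
    have n : (u ^ M)⁻¹ * a ^ M ≠ u ^ M * a ^ M := by
      intro h
      apply hU
      have h1 := mul_right_cancel₀ hA0 h
      calc (u ^ M) ^ 2 = u ^ M * (u ^ M)⁻¹ := by rw [h1, pow_two]
        _ = 1 := mul_inv_cancel₀ hU0
    have e3 : (u⁻¹ * a) ^ M ≠ u ^ M * a ^ M := by
      rw [mul_pow, inv_pow]
      exact n
    have e4 : (u⁻¹ * a⁻¹) ^ M ≠ u ^ M * a ^ M := by
      rw [mul_pow, inv_pow, inv_pow, hA']
      exact n
    have hκ := hE a ha hr (u ^ M * a ^ M)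
    rw [Ec_pos e1, Ec_pos e2, Ec_neg e3, Ec_neg e4, add_zero, add_zero, add_assoc (_ + _)] at hκ
    have e5 : (u ^ M * a ^ M) ^ 2 = (u ^ M) ^ 2 := by rw [mul_pow, hA, mul_one]
    have hκ2 : (u ^ M * a ^ M) ^ 2 ≠ 1 := by rw [e5]; exact hU
    rcases Ec_pair (M := M) hb0 hκ2 with hB | ⟨y, hy, hyM, hyE⟩
    · rcases Ec_pair (M := M) hc0 hκ2 with hC | ⟨z, hz, hzM, hzE⟩
      · rw [hB, hC, add_zero, ← mul_add] at hκ
        exact Or.inr (Or.inl ((mul_eq_zero.1 hκ).resolve_left hu0))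
      · have := sq_of hc0 hz hzM
        rw [e5] at this
        exact Or.inr (Or.inr (Or.inl ⟨hA, Or.inr this⟩))
    · have := sq_of hb0 hy hyM
      rw [e5] at this
      exact Or.inr (Or.inr (Or.inl ⟨hA, Or.inl this⟩))
  · by_cases hUA : (u ^ M * a ^ M) ^ 2 = 1
    · -- replace `a` by its inverse
      have hr' : (u + u⁻¹) * (a⁻¹ + a⁻¹⁻¹) = b + b⁻¹ + (c + c⁻¹) := by
        rw [inv_inv, add_comm a⁻¹ a]
        exact hr
      have hAi : (a⁻¹ ^ M) ^ 2 = ((a ^ M) ^ 2)⁻¹ := by rw [inv_pow, inv_pow]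
      have h1 : ((a ^ M) ^ 2)⁻¹ = (u ^ M) ^ 2 := by
        rw [mul_pow] at hUA
        exact (eq_inv_of_mul_eq_one_left hUA).symm
      have h2 : (a⁻¹ ^ M) ^ 2 ≠ 1 := by
        rw [hAi, h1]
        exact hU
      have h3 : (u ^ M * a⁻¹ ^ M) ^ 2 ≠ 1 := by
        rw [mul_pow, hAi, h1]
        intro h
        apply hU4
        rw [← h]
        ring
      rcases one_rel_aux hu ha.inv hb hc hr' (hE a⁻¹ ha.inv hr') hU h2 h3 with (h | h) | ⟨h, h'⟩
      · exact Or.inl (Or.inr h)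
      · rw [inv_inv] at h
        exact Or.inl (Or.inl h)
      · refine Or.inr (Or.inr (Or.inr ⟨Or.inr ?_, h'⟩))
        rw [← h, hAi]
        exact mul_inv_cancel₀ (pow_ne_zero _ hA0)
    · rcases one_rel_aux hu ha hb hc hr (hE a ha hr) hU hA hUA with h | ⟨h, h'⟩
      · exact Or.inl h
      · exact Or.inr (Or.inr (Or.inr ⟨Or.inl h, h'⟩))

/-- **The dichotomy.** -/
theorem thm_DIC : St_DIC := by
  obtain ⟨M, hM, hcl⟩ := exists_class
  refine ⟨24 * M, by omega, fun u p s hu huN hT => ?_⟩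
  have hu0 := hu.ne_zero
  have hpow : ∀ k : ℕ, k ∣ 24 → (u ^ M) ^ k ≠ 1 := by
    rintro k ⟨d, hd⟩ h
    apply huN
    rw [mul_comm, pow_mul, hd, pow_mul, h, one_pow]
  have hU2 := hpow 2 (by norm_num)
  have hU4 := hpow 4 (by norm_num)
  have hU6 := hpow 6 (by norm_num)
  have hU8 := hpow 8 (by norm_num)
  have hu2 : u ^ 2 ≠ 1 := by
    intro h
    apply hU2
    rw [← pow_mul, mul_comm, pow_mul, h, one_pow]
  set y : ℤ → ℂ := fun m => p * u ^ m + s * u ^ (-m) with hy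
  have ha : ∀ m : ℤ, ∃ a : ℂ, RU a ∧ (-2 ≤ m → m ≤ 3 → y m = a + a⁻¹) := by
    intro m
    by_cases h : -2 ≤ m ∧ m ≤ 3
    · obtain ⟨a, h1, h2⟩ := hT m h.1 h.2
      exact ⟨a, h1, fun _ _ => h2⟩
    · exact ⟨1, RU.one, fun h1 h2 => absurd ⟨h1, h2⟩ h⟩
  choose a haR hay using ha
  have hrec : ∀ m : ℤ, (u + u⁻¹) * y m = y (m + 1) + y (m - 1) := by
    intro m
    simp only [hy]
    rw [zpow_add₀ hu0, zpow_sub₀ hu0, neg_add, neg_sub, sub_eq_add_neg (1 : ℤ) m, zpow_add₀ hu0,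
      zpow_add₀ hu0, zpow_one, zpow_neg, zpow_neg, zpow_one]
    field_simp
    ring
  have hfour : ∀ m : ℤ, -1 ≤ m → m ≤ 2 → Four M u (a m) (a (m + 1)) (a (m - 1)) := by
    intro m h1 h2
    refine one_rel hu (haR _) (haR _) (haR _) ?_ ?_ hU2 hU4
    · rw [← hay m (by omega) (by omega), ← hay (m + 1) (by omega) (by omega),
        ← hay (m - 1) (by omega) (by omega)]
      exact hrec m
    · intro a' ha' hr'
      exact hcl u a' _ _ hu ha' (haR _) (haR _) hr'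
  -- case (i)
  by_cases hi : ∃ m : ℤ, -1 ≤ m ∧ m ≤ 2 ∧
      (a (m + 1) + (a (m + 1))⁻¹ = u * a m + (u * a m)⁻¹ ∨
        a (m + 1) + (a (m + 1))⁻¹ = u * (a m)⁻¹ + (u * (a m)⁻¹)⁻¹)
  · right
    obtain ⟨m, h1, h2, h3⟩ := hi
    have h4 := hay m (by omega) (by omega)
    have h5 := hay (m + 1) (by omega) (by omega)
    have h6 : ∃ b : ℂ, RU b ∧ p * u ^ m + s * u ^ (-m) = b + b⁻¹ ∧
        p * u ^ m * u + s * u ^ (-m) * u⁻¹ = u * b + u⁻¹ * b⁻¹ := by
      have h7 : y (m + 1) = p * u ^ m * u + s * u ^ (-m) * u⁻¹ := by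
        simp only [hy]
        rw [zpow_add₀ hu0, neg_add, zpow_add₀ hu0, zpow_one, zpow_neg, zpow_neg, zpow_one]
        ring
      rcases h3 with h3 | h3
      · refine ⟨a m, haR m, h4, ?_⟩
        rw [← h7, h5, h3, mul_inv]
      · refine ⟨(a m)⁻¹, (haR m).inv, ?_, ?_⟩
        · rw [inv_inv, add_comm (a m)⁻¹]
          exact h4
        · rw [← h7, h5, h3, mul_inv]
    obtain ⟨b, hb, hb1, hb2⟩ := h6
    have hb0 := hb.ne_zero
    have hP : p * u ^ m = b := by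
      have h8 : (p * u ^ m - b) * (u ^ 2 - 1) = 0 := by
        have h9 : (p * u ^ m * u + s * u ^ (-m) * u⁻¹) * u = (u * b + u⁻¹ * b⁻¹) * u := by
          rw [hb2]
        have h10 : u⁻¹ * u = 1 := inv_mul_cancel₀ hu0
        linear_combination h9 - hb1 - (s * u ^ (-m) - b⁻¹) * h10
      have h9 := (mul_eq_zero.1 h8).resolve_right (sub_ne_zero.2 hu2)
      exact sub_eq_zero.1 h9
    have hS : s * u ^ (-m) = b⁻¹ := by
      rw [hP] at hb1
      exact add_left_cancel hb1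
    have hum : RU (u ^ m) := by
      obtain ⟨k, hk, hk1⟩ := hu
      exact ⟨k, hk, by rw [← zpow_natCast, ← zpow_mul, mul_comm, zpow_mul, zpow_natCast, hk1,
        one_zpow]⟩
    have hp : p = b * (u ^ m)⁻¹ := by
      rw [← hP, mul_inv_cancel_right₀ hum.ne_zero]
    refine ⟨by rw [hp]; exact hb.mul hum.inv, ?_⟩
    have hs : s = b⁻¹ * u ^ m := by
      rw [← hS, mul_assoc, ← zpow_add₀ hu0, neg_add_cancel, zpow_zero, mul_one]
    rw [hp, hs]
    have h11 := hum.ne_zero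
    field_simp
  · push Not at hi
    left
    have hthree : ∀ m : ℤ, -1 ≤ m → m ≤ 2 →
        a m + (a m)⁻¹ = 0 ∨
        ((a m ^ M) ^ 2 = 1 ∧ (((a (m + 1) ^ M) ^ 2 = (u ^ M) ^ 2 ∨
            (a (m + 1) ^ M) ^ 2 * (u ^ M) ^ 2 = 1) ∨
          ((a (m - 1) ^ M) ^ 2 = (u ^ M) ^ 2 ∨ (a (m - 1) ^ M) ^ 2 * (u ^ M) ^ 2 = 1))) ∨
        (((a m ^ M) ^ 2 = (u ^ M) ^ 2 ∨ (a m ^ M) ^ 2 * (u ^ M) ^ 2 = 1) ∧
          ((a (m + 1) ^ M) ^ 2 = (u ^ M) ^ 4 ∨ (a (m + 1) ^ M) ^ 2 * (u ^ M) ^ 4 = 1) ∧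
          ((a (m - 1) ^ M) ^ 2 = (u ^ M) ^ 4 ∨ (a (m - 1) ^ M) ^ 2 * (u ^ M) ^ 4 = 1)) := by
      intro m h1 h2
      rcases hfour m h1 h2 with h | h
      · rcases h with h | h
        · exact absurd h (hi m h1 h2).1
        · exact absurd h (hi m h1 h2).2
      · exact h
    -- `a + a⁻¹ = 0` gives `a' ^ 4 = 1`
    have hzero : ∀ m : ℤ, a m + (a m)⁻¹ = 0 → (a m ^ M) ^ 4 = 1 := by
      intro m h
      have h1 := (haR m).ne_zero
      have h2 : a m ^ 2 = -1 := by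
        field_simp at h
        linear_combination h
      rw [← pow_mul, mul_comm, pow_mul, show (4 : ℕ) = 2 * 2 from rfl, pow_mul, h2, neg_one_sq,
        one_pow]
    have hX0 : ∀ m : ℤ, (a m ^ M) ^ 2 ≠ 0 := fun m =>
      pow_ne_zero _ (pow_ne_zero _ (haR m).ne_zero)
    have hU0 : u ^ M ≠ 0 := pow_ne_zero _ hu0
    -- a neighbour of type `2` is impossible next to type `0`
    have hno2 : ∀ n m : ℤ, -1 ≤ n → n ≤ 2 → (m = n + 1 ∨ m = n - 1) →
        ((a n ^ M) ^ 2 = (u ^ M) ^ 2 ∨ (a n ^ M) ^ 2 * (u ^ M) ^ 2 = 1) →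
        (a m ^ M) ^ 2 = 1 → False := by
      intro n m h1 h2 hm hn hm1
      have hn4 : (a n ^ M) ^ 4 = 1 → False := by
        intro h
        rcases hn with hn | hn
        · apply hU4
          calc (u ^ M) ^ 4 = ((u ^ M) ^ 2) ^ 2 := by ring
            _ = (a n ^ M) ^ 4 := by rw [← hn]; ring
            _ = 1 := h
        · apply hU4
          calc (u ^ M) ^ 4 = (a n ^ M) ^ 4 * (u ^ M) ^ 4 := by rw [h, one_mul]
            _ = ((a n ^ M) ^ 2 * (u ^ M) ^ 2) ^ 2 := by ring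
            _ = 1 := by rw [hn, one_pow]
      rcases hthree n h1 h2 with h | h | h
      · exact hn4 (hzero n h)
      · exact hn4 (by
          calc (a n ^ M) ^ 4 = ((a n ^ M) ^ 2) ^ 2 := by ring
            _ = 1 := by rw [h.1, one_pow])
      · have h3 : (a m ^ M) ^ 2 = (u ^ M) ^ 4 ∨ (a m ^ M) ^ 2 * (u ^ M) ^ 4 = 1 := by
          rcases hm with rfl | rfl
          · exact h.2.1
          · exact h.2.2
        rcases h3 with h3 | h3
        · exact hU4 (by rw [← h3, hm1])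
        · rw [hm1, one_mul] at h3
          exact hU4 h3
    have hy01 : y 0 = 0 ∧ y 1 = 0 := by
      have main : ∀ m : ℤ, 0 ≤ m → m ≤ 1 → y m = 0 := by
        intro m h1 h2
        rcases hthree m (by omega) (by omega) with h | h | h
        · rw [hay m (by omega) (by omega)]
          exact h
        · exfalso
          rcases h.2 with h3 | h3
          · exact hno2 (m + 1) m (by omega) (by omega) (Or.inr (by ring)) h3 h.1
          · exact hno2 (m - 1) m (by omega) (by omega) (Or.inl (by ring)) h3 h.1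
        · exfalso
          -- `n = m + 1` has type `4`
          have h3 := h.2.1
          have hn4 : (a (m + 1) ^ M) ^ 4 = 1 → False := by
            intro h4
            rcases h3 with h3 | h3
            · apply hU8
              calc (u ^ M) ^ 8 = ((u ^ M) ^ 4) ^ 2 := by ring
                _ = (a (m + 1) ^ M) ^ 4 := by rw [← h3]; ring
                _ = 1 := h4
            · apply hU8
              calc (u ^ M) ^ 8 = (a (m + 1) ^ M) ^ 4 * (u ^ M) ^ 8 := by rw [h4, one_mul]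
                _ = ((a (m + 1) ^ M) ^ 2 * (u ^ M) ^ 4) ^ 2 := by ring
                _ = 1 := by rw [h3, one_pow]
          rcases hthree (m + 1) (by omega) (by omega) with h5 | h5 | h5
          · exact hn4 (hzero _ h5)
          · exact hn4 (by
              calc (a (m + 1) ^ M) ^ 4 = ((a (m + 1) ^ M) ^ 2) ^ 2 := by ring
                _ = 1 := by rw [h5.1, one_pow])
          · rcases h3 with h3 | h3 <;> rcases h5.1 with h6 | h6
            · -- `U ^ 4 = U ^ 2`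
              apply hU2
              have h7 : (u ^ M) ^ 2 * (u ^ M) ^ 2 = (u ^ M) ^ 2 * 1 := by
                calc (u ^ M) ^ 2 * (u ^ M) ^ 2 = (u ^ M) ^ 4 := by ring
                  _ = (a (m + 1) ^ M) ^ 2 := h3.symm
                  _ = (u ^ M) ^ 2 * 1 := by rw [h6, mul_one]
              exact mul_left_cancel₀ (pow_ne_zero 2 hU0) h7
            · apply hU6
              rw [h3] at h6
              calc (u ^ M) ^ 6 = (u ^ M) ^ 4 * (u ^ M) ^ 2 := by ring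
                _ = 1 := h6
            · apply hU6
              rw [h6] at h3
              calc (u ^ M) ^ 6 = (u ^ M) ^ 2 * (u ^ M) ^ 4 := by ring
                _ = 1 := h3
            · apply hU2
              have h7 : (a (m + 1) ^ M) ^ 2 * (u ^ M) ^ 2 * (u ^ M) ^ 2 = 1 := by
                calc (a (m + 1) ^ M) ^ 2 * (u ^ M) ^ 2 * (u ^ M) ^ 2 =
                    (a (m + 1) ^ M) ^ 2 * (u ^ M) ^ 4 := by ring
                  _ = 1 := h3
              rwa [h6, one_mul] at h7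
      exact ⟨main 0 le_rfl (by omega), main 1 (by omega) le_rfl⟩
    obtain ⟨h0, h1⟩ := hy01
    simp only [hy, zpow_zero, mul_one, zpow_one, zpow_neg, inv_one] at h0 h1
    have hs : s = -p := by linear_combination h0
    rw [hs] at h1
    have h2 : p * (u ^ 2 - 1) = 0 := by
      have h3 : (p * u + -p * u⁻¹) * u = 0 := by rw [h1, zero_mul]
      have h4 : u⁻¹ * u = 1 := inv_mul_cancel₀ hu0
      linear_combination h3 + p * h4
    have hp := (mul_eq_zero.1 h2).resolve_right (sub_ne_zero.2 hu2)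
    exact ⟨hp, by rw [hs, hp, neg_zero]⟩

end Pool.Agent.H2T
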