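import Pool.Agent.H2T.Test
import Pool.Agent.H2T.DIC
import Pool.Agent.H2T.BET
import Pool.Agent.H2R.Final
import Pool.Agent.H2R.Virt
import Pool.Agent.H2G.Spin
import Pool.Agent.Helper33.RT.H2Bridge

/-!
# Finite sets of vanishing cycles which suffice in rank two

Chains of loops, hyperelliptic curves and spin structures.
-/

set_option autoImplicit false

namespace Pool.Agent.H2T

open Matrix
open Helper12.Sc Helper12.Sc.SurfaceGroup
open Pool.Agent.H2R (Quasi CRed M2 IsVanishing)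
open Pool.Agent.Helper33.RT
open SpQ (IsSpinStructure)

theorem fin : St_Fin := thm_Fin (thm_TST thm_DIC thm_BET) H2R.main

/-- the common conclusion -/
theorem concl {G : Type} [Group G] {n : ℕ} (c : Fin n → G)
    (hc : Subgroup.closure (Set.range c) = ⊤) (ρ : G →* GL (Fin 2) ℂ)
    (hq : ∀ x, Quasi (ρ x : M2)) :
    (∃ H : Subgroup G, H.Normal ∧ H.FiniteIndex ∧ ∀ x ∈ H, ((ρ x : M2) - 1) ^ 2 = 0) ∧
    {χ : G → ℂ | ∃ φ : G ≃* G, χ = fun x => (ρ (φ x) : M2).trace}.Finite ∧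
    (CRed ρ → Finite ρ.range) := by
  have hfin := H2G.finite_of_cred c hc ρ hq
  exact ⟨H2R.virt _ ρ hc hq hfin, H2R.finite_orbit_of_quasi _ ρ hc hq, hfin⟩

/-- Chains. -/
theorem chain (n : ℕ) (hn : 4 ≤ n) : ∃ L : Set (FreeGroup (Fin n)), L.Finite ∧
    (∀ w ∈ L, IsVanishing FreeGroup.of w) ∧
    ∀ (G : Type) [Group G] (c : Fin n → G), ∀ ρ : G →* GL (Fin 2) ℂ,
      (∀ w ∈ L, Quasi (ρ (FreeGroup.lift c w) : M2)) →
      ∀ x ∈ Subgroup.closure (Set.range c), Quasi (ρ x : M2) := by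
  obtain ⟨L, hL, h⟩ := fin n hn
  refine ⟨L, L.finite_toSet, fun w hw => hL w hw, fun G _ c ρ hρ x hx => ?_⟩
  let H := Subgroup.closure (Set.range c)
  let c' : Fin n → H := fun i => ⟨c i, Subgroup.subset_closure ⟨i, rfl⟩⟩
  have hc' : Subgroup.closure (Set.range c') = ⊤ := by
    have h1 : (fun i => H.subtype (c' i)) = c := rfl
    apply Subgroup.map_injective H.subtype_injective
    rw [MonoidHom.map_closure, ← Set.range_comp, ← MonoidHom.range_eq_map, Subgroup.range_subtype]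
    rfl
  have e : FreeGroup.lift c = H.subtype.comp (FreeGroup.lift c') := by
    ext i
    rw [FreeGroup.lift_apply_of, MonoidHom.comp_apply, FreeGroup.lift_apply_of]
    rfl
  refine (h H c' (ρ.comp H.subtype) hc' fun w hw => ?_).1 ⟨x, hx⟩
  have h1 := hρ w hw
  rw [e] at h1
  exact h1

/-- Hyperelliptic curves. -/
theorem hyp (g : ℕ) (hg : 2 ≤ g) : ∃ L : Set (evenSub (2 * g + 2)), L.Finite ∧
    (∀ y ∈ L, IsLoopAround 2 y) ∧ ∀ ρ : evenSub (2 * g + 2) →* GL (Fin 2) ℂ,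
      (∀ y ∈ L, Quasi (ρ y : M2)) → ∀ y, Quasi (ρ y : M2) := by
  obtain ⟨L, hfin, hL, h⟩ := chain (2 * g) (by omega)
  have h0 : 2 * g < 2 * g + 2 := by omega
  refine ⟨FreeGroup.lift (cC (2 * g + 2) (2 * g) h0) '' L, hfin.image _, ?_, ?_⟩
  · rintro _ ⟨w, hw, rfl⟩
    refine loop_of_vanishing h0 _ ?_
    have h1 := (hL w hw).map (FreeGroup.lift (cC (2 * g + 2) (2 * g) h0))
    have e : (fun i => FreeGroup.lift (cC (2 * g + 2) (2 * g) h0) (FreeGroup.of i)) =
        cC (2 * g + 2) (2 * g) h0 := by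
      funext i
      exact FreeGroup.lift_apply_of
    rwa [e] at h1
  · intro ρ hρ y
    refine h _ (cC (2 * g + 2) (2 * g) h0) ρ (fun w hw => hρ _ ⟨w, hw, rfl⟩) y ?_
    rw [closure_cC g h0]
    exact Subgroup.mem_top y

theorem tri_eq (g : ℕ) : SpQ.tri g = g * (g + 1) / 2 := by
  have h : SpQ.tri g * 2 = g * (g + 1) := by
    induction g with
    | zero => rfl
    | succ g ih =>
      show (SpQ.tri g + (g + 1)) * 2 = _
      rw [add_mul, ih]
      ring
  rw [← h, Nat.mul_div_cancel _ two_pos]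

variable {g k : ℕ} {w : SurfaceGroup g → ZMod k}

/-- Spin structures. -/
theorem spin (hg2 : 2 ≤ g) (hw : IsSpinStructure k w)
    (hg : 5 ≤ g ∨ Odd k ∨ ∃ h2 : 2 ∣ k,
      ∑ i, (ZMod.castHom h2 (ZMod 2) (w (a i)) + 1) * (ZMod.castHom h2 (ZMod 2) (w (b i)) + 1) =
        (SpQ.tri g : ZMod 2)) :
    ∃ L : Set (SurfaceGroup g), L.Finite ∧
      (∀ x ∈ L, IsNonseparatingSimple x ∧ w x = 0) ∧ ∀ ρ : SurfaceGroup g →* GL (Fin 2) ℂ,
        (∀ x ∈ L, Quasi (ρ x : M2)) → ∀ x, Quasi (ρ x : M2) := by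
  obtain ⟨m, hm, hm2, φ, -, h⟩ := SpQ.exists_three hg2 hw hg
  obtain ⟨L, hfin, hL, hmain⟩ := chain (2 * m) (by omega)
  have hex : ∀ i : Fin g × Fin g × Fin g, ∃ c : Fin (2 * m) → SurfaceGroup g,
      (∀ x, IsVanishing c x → IsNonseparatingSimple x ∧ w x = 0) ∧
      ∀ j, (j = i.1 ∨ j = i.2.1 ∨ j = i.2.2) →
        φ (a j) ∈ Subgroup.closure (Set.range c) ∧ φ (b j) ∈ Subgroup.closure (Set.range c) := by
    intro i
    obtain ⟨φ', hφ', hτ, hmem⟩ := h i.1 i.2.1 i.2.2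
    obtain ⟨c, hc, hvan⟩ := SpQ.spin_chain hw hφ' hm fun i hi => by
      have := hτ ⟨i, hi⟩
      exact this
    have hle : Subgroup.closure (Set.range (fun i : Fin m => φ' (a (Fin.castLE hm i))) ∪
        Set.range (fun i : Fin m => φ' (b (Fin.castLE hm i)))) ≤
        Subgroup.closure (Set.range c) := by
      rw [hc]
      apply Subgroup.closure_mono
      rintro _ (⟨i, rfl⟩ | ⟨i, rfl⟩)
      · exact ⟨Fin.castLE hm i, i.2, Or.inl rfl⟩
      · exact ⟨Fin.castLE hm i, i.2, Or.inr rfl⟩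
    exact ⟨c, hvan, fun j hj => ⟨hle (hmem j hj).1, hle (hmem j hj).2⟩⟩
  choose c hvan hgen using hex
  refine ⟨⋃ i : Fin g × Fin g × Fin g, FreeGroup.lift (c i) '' L,
    Set.finite_iUnion fun i => hfin.image _, ?_, ?_⟩
  · rintro x hx
    obtain ⟨i, u, hu, rfl⟩ := Set.mem_iUnion.1 hx
    refine hvan i _ ?_
    have h1 := (hL u hu).map (FreeGroup.lift (c i))
    have e : (fun j => FreeGroup.lift (c i) (FreeGroup.of j)) = c i := by
      funext j
      exact FreeGroup.lift_apply_of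
    rwa [e] at h1
  · intro ρ hρ x
    refine H2G.glue _ (H2G.closure_gens φ) ρ ?_ x
    intro j1 j2 j3 y hy
    let e : Fin (g + g) → Fin g := fun j => Sum.elim id id (finSumFinEquiv.symm j)
    refine hmain _ (c (e j1, e j2, e j3)) ρ
      (fun u hu => hρ _ (Set.mem_iUnion.2 ⟨_, u, hu, rfl⟩)) y ?_
    have hgen' : ∀ j, e j = e j1 ∨ e j = e j2 ∨ e j = e j3 →
        Sum.elim (fun i => φ (a i)) (fun i => φ (b i)) (finSumFinEquiv.symm j) ∈
          Subgroup.closure (Set.range (c (e j1, e j2, e j3))) := by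
      intro j hj
      have h1 := hgen (e j1, e j2, e j3) (e j) hj
      simp only [e] at h1 ⊢
      rcases h2 : finSumFinEquiv.symm j with i | i
      · rw [h2] at h1
        exact h1.1
      · rw [h2] at h1
        exact h1.2
    refine (Subgroup.closure_le _).2 ?_ hy
    rintro z (rfl | rfl | rfl)
    · exact hgen' j1 (Or.inl rfl)
    · exact hgen' j2 (Or.inr (Or.inl rfl))
    · exact hgen' j3 (Or.inr (Or.inr rfl))

end Pool.Agent.H2T
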