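import Pool.Agent.H2T.Stm
import Pool.Agent.Helper33.RT.H2Bridge

/-!
# A finite test set in rank two: moves of points

A chain `c` is written as `c i = (A i)⁻¹ * A (i + 1)`; twists move two neighbours of the sequence `A`.
-/

set_option autoImplicit false

namespace Pool.Agent.H2T

open Pool.Agent.H2R (Twisted IsVanishing)

variable {F : Type*} [Group F]

/-- the positive move of the points `k`, `k + 1` -/
def mv (k : ℕ) (A : ℕ → F) : ℕ → F := fun i =>
  if i = k then A (k + 1) else if i = k + 1 then A (k + 1) * (A k)⁻¹ * A (k + 1) else A i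

/-- the negative move of the points `k`, `k + 1` -/
def vm (k : ℕ) (A : ℕ → F) : ℕ → F := fun i =>
  if i = k then A k * (A (k + 1))⁻¹ * A k else if i = k + 1 then A k else A i

theorem mv_fst (k : ℕ) (A : ℕ → F) : mv k A k = A (k + 1) := if_pos rfl

theorem mv_snd (k : ℕ) (A : ℕ → F) : mv k A (k + 1) = A (k + 1) * (A k)⁻¹ * A (k + 1) := by
  unfold mv
  rw [if_neg (by omega), if_pos rfl]

theorem mv_ne (k : ℕ) (A : ℕ → F) {i : ℕ} (h : i ≠ k) (h' : i ≠ k + 1) : mv k A i = A i := by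
  unfold mv
  rw [if_neg h, if_neg h']

theorem vm_fst (k : ℕ) (A : ℕ → F) : vm k A k = A k * (A (k + 1))⁻¹ * A k := if_pos rfl

theorem vm_snd (k : ℕ) (A : ℕ → F) : vm k A (k + 1) = A k := by
  unfold vm
  rw [if_neg (by omega), if_pos rfl]

theorem vm_ne (k : ℕ) (A : ℕ → F) {i : ℕ} (h : i ≠ k) (h' : i ≠ k + 1) : vm k A i = A i := by
  unfold vm
  rw [if_neg h, if_neg h']

theorem mv_vm (k : ℕ) (A : ℕ → F) : mv k (vm k A) = A := by
  funext i
  by_cases h : i = k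
  · rw [h, mv_fst, vm_snd]
  · by_cases h' : i = k + 1
    · rw [h', mv_snd, vm_snd, vm_fst]
      group
    · rw [mv_ne k _ h h', vm_ne k _ h h']

theorem vm_mv (k : ℕ) (A : ℕ → F) : vm k (mv k A) = A := by
  funext i
  by_cases h : i = k
  · rw [h, vm_fst, mv_fst, mv_snd]
    group
  · by_cases h' : i = k + 1
    · rw [h', vm_snd, mv_fst]
    · rw [vm_ne k _ h h', mv_ne k _ h h']

/-- the sequences reached with at most `d` moves -/
def S (n : ℕ) (A : ℕ → F) : ℕ → Set (ℕ → F)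
  | 0 => {A}
  | d + 1 => S n A d ∪ ⋃ k ∈ Finset.range n, (mv k '' S n A d ∪ vm k '' S n A d)

theorem S_finite (n : ℕ) (A : ℕ → F) (d : ℕ) : (S n A d).Finite := by
  induction d with
  | zero => exact Set.finite_singleton _
  | succ d ih =>
    refine ih.union ?_
    refine Set.Finite.biUnion (Finset.finite_toSet _) fun k _ => ?_
    exact (ih.image _).union (ih.image _)

theorem self_mem_S (n : ℕ) (A : ℕ → F) (d : ℕ) : A ∈ S n A d := by
  induction d with
  | zero => exact Set.mem_singleton _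
  | succ d ih => exact Or.inl ih

theorem S_succ {n : ℕ} {A B : ℕ → F} {d : ℕ} (h : B ∈ S n A d) : B ∈ S n A (d + 1) := Or.inl h

theorem S_mono {n : ℕ} {A B : ℕ → F} {d e : ℕ} (h : B ∈ S n A d) (hde : d ≤ e) : B ∈ S n A e := by
  induction e, hde using Nat.le_induction with
  | base => exact h
  | succ e _ ih => exact S_succ ih

theorem S_mv {n : ℕ} {A B : ℕ → F} {d k : ℕ} (h : B ∈ S n A d) (hk : k < n) :
    mv k B ∈ S n A (d + 1) :=
  Or.inr (Set.mem_biUnion (Finset.mem_coe.2 (Finset.mem_range.2 hk)) (Or.inl ⟨B, h, rfl⟩))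

theorem S_vm {n : ℕ} {A B : ℕ → F} {d k : ℕ} (h : B ∈ S n A d) (hk : k < n) :
    vm k B ∈ S n A (d + 1) :=
  Or.inr (Set.mem_biUnion (Finset.mem_coe.2 (Finset.mem_range.2 hk)) (Or.inr ⟨B, h, rfl⟩))

theorem S_cases {n : ℕ} {A B : ℕ → F} {d : ℕ} (h : B ∈ S n A (d + 1)) :
    B ∈ S n A d ∨ ∃ C ∈ S n A d, ∃ k < n, B = mv k C ∨ B = vm k C := by
  rcases h with h | h
  · exact Or.inl h
  · obtain ⟨k, hk, h1⟩ := Set.mem_iUnion₂.1 h
    rw [Finset.mem_range] at hk
    rcases h1 with ⟨C, hC, rfl⟩ | ⟨C, hC, rfl⟩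
    · exact Or.inr ⟨C, hC, k, hk, Or.inl rfl⟩
    · exact Or.inr ⟨C, hC, k, hk, Or.inr rfl⟩

theorem S_trans {n : ℕ} {A B C : ℕ → F} {d e : ℕ} (h : B ∈ S n A d) (h' : C ∈ S n B e) :
    C ∈ S n A (d + e) := by
  induction e generalizing C with
  | zero =>
    rw [Set.mem_singleton_iff.1 h']
    exact h
  | succ e ih =>
    rcases S_cases h' with h1 | ⟨D, hD, k, hk, rfl | rfl⟩
    · exact S_mono (ih h1) (by omega)
    · exact S_mv (ih hD) hk
    · exact S_vm (ih hD) hk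

/-- a point can be brought to the left unchanged -/
theorem bring {n : ℕ} (q : ℕ) : ∀ (p : ℕ) (A : ℕ → F), q ≤ p → p ≤ n →
    ∃ B ∈ S n A n, B q = A p ∧ (∀ i < q, B i = A i) ∧ ∀ i, p < i → B i = A i := by
  have key : ∀ (m p : ℕ) (A : ℕ → F), q + m = p → p ≤ n →
      ∃ B ∈ S n A m, B q = A p ∧ (∀ i < q, B i = A i) ∧ ∀ i, p < i → B i = A i := by
    intro m
    induction m with
    | zero =>
      rintro p A h -
      rw [add_zero] at h
      rw [← h]
      exact ⟨A, self_mem_S _ _ _, rfl, fun _ _ => rfl, fun _ _ => rfl⟩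
    | succ m ih =>
      intro p A h hp
      obtain ⟨B, hB, h1, h2, h3⟩ := ih (q + m) (mv (q + m) A) rfl (by omega)
      have h4 : mv (q + m) A ∈ S n A 1 := S_mv (self_mem_S n A 0) (by omega)
      refine ⟨B, ?_, ?_, ?_, ?_⟩
      · have := S_trans h4 hB
        rwa [add_comm] at this
      · rw [h1, mv_fst, ← h]
        rfl
      · intro i hi
        rw [h2 i hi, mv_ne _ _ (by omega) (by omega)]
      · intro i hi
        rw [h3 i (by omega), mv_ne _ _ (by omega) (by omega)]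
  intro p A hqp hp
  obtain ⟨B, hB, h⟩ := key (p - q) p A (by omega) hp
  exact ⟨B, S_mono hB (by omega), h⟩

/-- two points can be brought to the places `q`, `q + 1` -/
theorem bring_two {n : ℕ} (q p p' : ℕ) (A : ℕ → F) (hq : q ≤ p) (hp : p < p') (hp' : p' ≤ n) :
    ∃ B ∈ S n A (2 * n), B q = A p ∧ B (q + 1) = A p' ∧ ∀ i < q, B i = A i := by
  obtain ⟨B, hB, h1, h2, h3⟩ := bring (n := n) q p A hq (by omega)
  obtain ⟨C, hC, k1, k2, k3⟩ := bring (n := n) (q + 1) p' B (by omega) hp'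
  refine ⟨C, ?_, ?_, ?_, ?_⟩
  · have := S_trans hB hC
    rwa [← two_mul] at this
  · rw [k2 q (by omega), h1]
  · rw [k1, h3 p' hp]
  · intro i hi
    rw [k2 i (by omega), h2 i hi]

/-! ### Chains -/

/-- the chain of a sequence of points -/
def ch (n : ℕ) (A : ℕ → F) : Fin n → F := fun i => (A i.1)⁻¹ * A (i.1 + 1)

theorem ch_mv {n : ℕ} (k : Fin n) (A : ℕ → F) : ch n (mv k.1 A) = H2R.twist k (ch n A) := by
  funext j
  unfold ch H2R.twist
  dsimp only
  by_cases h1 : j.1 + 1 = k.1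
  · rw [if_pos h1, h1, mv_fst, mv_ne _ _ (by omega) (by omega)]
    group
  · rw [if_neg h1]
    by_cases h2 : j.1 = k.1 + 1
    · rw [if_pos h2, h2, mv_snd, mv_ne _ _ (by omega) (by omega)]
      group
    · rw [if_neg h2]
      by_cases h3 : j.1 = k.1
      · rw [h3, mv_fst, mv_snd]
        group
      · rw [mv_ne _ _ h3 h2, mv_ne _ _ h1 (by omega)]

theorem twisted_of_S {n : ℕ} {A B : ℕ → F} {d : ℕ} (h : B ∈ S n A d) :
    Twisted (ch n A) (ch n B) := by
  induction d generalizing B with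
  | zero =>
    rw [Set.mem_singleton_iff.1 h]
    exact Twisted.refl
  | succ d ih =>
    rcases S_cases h with h1 | ⟨C, hC, k, hk, rfl | rfl⟩
    · exact ih h1
    · rw [ch_mv ⟨k, hk⟩]
      exact Twisted.twist _ (ih hC)
    · refine Twisted.untwist ⟨k, hk⟩ ?_
      rw [← ch_mv ⟨k, hk⟩, mv_vm]
      exact ih hC

theorem S_of_twisted {n : ℕ} {A : ℕ → F} {c : Fin n → F} (h : Twisted (ch n A) c) :
    ∃ d, ∃ B ∈ S n A d, ch n B = c := by
  induction h with
  | refl => exact ⟨0, A, self_mem_S _ _ _, rfl⟩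
  | @twist c' i _ ih =>
    obtain ⟨d, B, hB, rfl⟩ := ih
    exact ⟨d + 1, mv i.1 B, S_mv hB i.2, ch_mv i B⟩
  | @untwist c' i _ ih =>
    obtain ⟨d, B, hB, h⟩ := ih
    refine ⟨d + 1, vm i.1 B, S_vm hB i.2, ?_⟩
    apply Helper33.RT.twist_inj i
    rw [← h, ← ch_mv, mv_vm]

/-- the quotients of two points are vanishing cycles -/
theorem vanishing_quot {n : ℕ} {A B : ℕ → F} {d : ℕ} (h : B ∈ S n A d) {i j : ℕ} (hij : i < j)
    (hj : j ≤ n) : IsVanishing (ch n A) ((B i)⁻¹ * B j) := by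
  obtain ⟨C, hC, h1, h2, -⟩ := bring_two (n := n) 0 i j B (Nat.zero_le _) hij hj
  refine ⟨ch n C, twisted_of_S (S_trans h hC), ⟨0, by omega⟩, ?_⟩
  show (C 0)⁻¹ * C (0 + 1) = _
  rw [h1, h2]

/-! ### The generated subgroup -/

/-- the subgroup generated by the quotients of the points -/
def Hs (n : ℕ) (A : ℕ → F) : Subgroup F :=
  Subgroup.closure {x | ∃ i j, i ≤ n ∧ j ≤ n ∧ x = (A i)⁻¹ * A j}

theorem quot_mem_Hs {n : ℕ} (A : ℕ → F) {i j : ℕ} (hi : i ≤ n) (hj : j ≤ n) :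
    (A i)⁻¹ * A j ∈ Hs n A := Subgroup.subset_closure ⟨i, j, hi, hj, rfl⟩

theorem Hs_le {n : ℕ} {A B : ℕ → F} (p : ℕ) (h : ∀ i ≤ n, (A p)⁻¹ * B i ∈ Hs n A) :
    Hs n B ≤ Hs n A := by
  unfold Hs
  rw [Subgroup.closure_le]
  rintro _ ⟨i, j, hi, hj, rfl⟩
  have h1 := (Hs n A).mul_mem ((Hs n A).inv_mem (h i hi)) (h j hj)
  have e : ((A p)⁻¹ * B i)⁻¹ * ((A p)⁻¹ * B j) = (B i)⁻¹ * B j := by group
  rw [e] at h1
  exact h1

theorem Hs_mv {n : ℕ} {k : ℕ} (hk : k < n) (A : ℕ → F) : Hs n (mv k A) ≤ Hs n A := by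
  refine Hs_le k fun i hi => ?_
  by_cases h1 : i = k
  · rw [h1, mv_fst]
    exact quot_mem_Hs A (by omega) (by omega)
  · by_cases h2 : i = k + 1
    · rw [h2, mv_snd]
      have h3 := quot_mem_Hs (n := n) A (i := k) (j := k + 1) (by omega) (by omega)
      have h4 := (Hs n A).mul_mem h3 h3
      have e : (A k)⁻¹ * A (k + 1) * ((A k)⁻¹ * A (k + 1)) =
          (A k)⁻¹ * (A (k + 1) * (A k)⁻¹ * A (k + 1)) := by group
      rwa [e] at h4
    · rw [mv_ne _ _ h1 h2]
      exact quot_mem_Hs A (by omega) hi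

theorem Hs_vm {n : ℕ} {k : ℕ} (hk : k < n) (A : ℕ → F) : Hs n (vm k A) ≤ Hs n A := by
  refine Hs_le k fun i hi => ?_
  by_cases h1 : i = k
  · rw [h1, vm_fst]
    have h3 := quot_mem_Hs (n := n) A (i := k + 1) (j := k) (by omega) (by omega)
    have e : (A k)⁻¹ * (A k * (A (k + 1))⁻¹ * A k) = (A (k + 1))⁻¹ * A k := by group
    rw [e]
    exact h3
  · by_cases h2 : i = k + 1
    · rw [h2, vm_snd]
      exact quot_mem_Hs A (by omega) (by omega)
    · rw [vm_ne _ _ h1 h2]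
      exact quot_mem_Hs A (by omega) hi

theorem Hs_S {n : ℕ} {A B : ℕ → F} {d : ℕ} (h : B ∈ S n A d) : Hs n A ≤ Hs n B := by
  induction d generalizing B with
  | zero => rw [Set.mem_singleton_iff.1 h]
  | succ d ih =>
    rcases S_cases h with h1 | ⟨C, hC, k, hk, rfl | rfl⟩
    · exact ih h1
    · refine (ih hC).trans ?_
      have := Hs_vm hk (mv k C)
      rwa [vm_mv] at this
    · refine (ih hC).trans ?_
      have := Hs_mv hk (vm k C)
      rwa [mv_vm] at this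

end Pool.Agent.H2T
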