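import Pool.Agent.H2R.Main

/-!
# A finite test set in rank two: statements (helper33)

For every `n` finitely many vanishing cycles of the free group of rank `n` suffice in the theorem H2.
-/

set_option autoImplicit false

namespace Pool.Agent.H2T

open Matrix
open Pool.Agent.H2R (RU Quasi CRed IsVanishing)

/-- traces of elements of finite order -/
def T (z : ℂ) : Prop := ∃ w : ℂ, RU w ∧ z = w + w⁻¹

/-- [DIC] The dichotomy.
PROOF.  (0) CLASS LEMMA: for a finite type `U` and `c : U → ℂ` there is `M > 0` such that for all roots of unity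
`ζ u` with `∑ u, c u * ζ u = 0` and all `κ : ℂ` also the sum of the `c u * ζ u` with `ζ u ^ M = κ` vanishes
(`Pool.Agent.Helper9.exists_order_bound` for all subsets `J` of `U`, `M` the product; strong induction on `J`:
a minimal vanishing sum lies in one class).  `M` can be multiplied by a constant; let `M` be even.
(1) ONE RELATION.  Write `x' = x ^ M`.  Let `u, a, b, c` be roots of unity, `(u + u⁻¹) (a + a⁻¹) = b + b⁻¹ + c + c⁻¹`
and `u' ^ 2`, `u' ^ 4 ≠ 1`.  Then (i) `{b + b⁻¹, c + c⁻¹} = {u a + u⁻¹ a⁻¹, u a⁻¹ + u⁻¹ a}`, or (ii) `a + a⁻¹ = 0`,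
or (iii) `a' ^ 2 = 1` and (`b' ^ 2 = u' ^ 2` or `u' ^ -2`, or the same for `c'`), or (iv) `a' ^ 2 = u' ^ 2` or
`u' ^ -2`, and `b' ^ 2`, `c' ^ 2` are `u' ^ 4` or `u' ^ -4`.
Class lemma for the eight terms `u a, u a⁻¹, u⁻¹ a, u⁻¹ a⁻¹, -b, -b⁻¹, -c, -c⁻¹`.  If `a' ^ 2 = 1`: the class of `u a`
contains `u a`, `u a⁻¹` but not `u⁻¹ a`, `u⁻¹ a⁻¹`; if no `b^±, c^±` is in it, `u (a + a⁻¹) = 0`: (ii), otherwise (iii).
If `a' ^ 2 ≠ 1`: replacing `a` by `a⁻¹` we may assume `(u' a') ^ 2 ≠ 1`.  The class of `u a` contains only `u a` of the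
first four terms, at most one of `b, b⁻¹` and at most one of `c, c⁻¹`.  If exactly one of the four is in it then it
is equal to `u a`: (i) (the other pair is the rest).  If both (`b' = (u' a')^±`, `c' = (u' a')^±`): if `(u' a'⁻¹) ^ 2 ≠ 1`
then the class of `u a⁻¹` contains only `u a⁻¹`: contradiction; so `a' ^ 2 = u' ^ 2`: (iv).
(2) `N = 24 M`, so `u' ^ k ≠ 1` for `k = 2, 4, 6, 8`.  `y m = p u ^ m + s u ^ -m`, `y (m+1) + y (m-1) = (u + u⁻¹) y m`;
`y m = a m + (a m)⁻¹` for `-2 ≤ m ≤ 3`; (1) applies for `m = -1, 0, 1, 2`.  If (i) for some `m`: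
`p u ^ m = a m, s u ^ -m = (a m)⁻¹` or the other way round (solve the two linear equations): done.  If
`y 0 = y 1 = 0` then `p = s = 0`.  Otherwise let `y m ≠ 0`, `m` in `{0, 1}`.  (iii) at `m`: a neighbour `n` of `m`
has `(a n)' ^ 2 = u' ^ ±2`; then at `n`: not (ii) (`a ^ 2 = -1`, `M` even, gives `a' ^ 2 = 1`), not (iii), and (iv) gives
`(a m)' ^ 2 = u' ^ ±4`, not `1`.  (iv) at `m`: `n = m + 1` has `(a n)' ^ 2 = u' ^ ±4`: not (ii), (iii), (iv). -/
def St_DIC : Prop := ∃ N : ℕ, 0 < N ∧ ∀ u p s : ℂ, RU u → u ^ N ≠ 1 →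
  (∀ m : ℤ, -2 ≤ m → m ≤ 3 → T (p * u ^ m + s * u ^ (-m))) →
  (p = 0 ∧ s = 0) ∨ (RU p ∧ p * s = 1)

/-- [BET] No constant term.
PROOF.  `v k = v u ^ (2 k)`, `v k + (v k)⁻¹ + β = w k + (w k)⁻¹`.  `M` from the class lemma for eight terms, `x' = x ^ M`,
`N = 5040 M`, so that the `u' ^ (2 i)`, `0 < i ≤ 10`, are not `1` (`2 i` divides `5040`).  (1) Choose `j < k < l` in `0..5` such that
`(v a)' (v b)' ≠ 1` for all `a, b` in `{j, k, l}`: `(v a)' (v b)' = v' ^ 2 u' ^ (2 (a + b))` is `1` for at most one value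
`σ` of `a + b`; take `0, 1, 2` if `σ` is not in `0..4`, otherwise `3, 4, 5`.  Also `(v a)' ≠ (v b)'` for `a ≠ b`.
(2) For `k ≠ l` among them: `w k + (w k)⁻¹ - v k - (v k)⁻¹ - w l - (w l)⁻¹ + v l + (v l)⁻¹ = 0` (both halves are `β`).
The class of `v k` contains no other `(v k)⁻¹, v l, (v l)⁻¹`, at most one of `(w k)^±` and at most one of `(w l)^±`; it
contains one of them.  If only `(w k)^±`: it is `v k`, `β = 0`.  If only `(w l)^±`: it is `-v k`; then the class of `v l`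
contains only `(w k)^±` (`(w l)' = (v k)'^±`), which is `-v l`: `β = -(v k + (v k)⁻¹ + v l + (v l)⁻¹)`.  If both:
the class of `v l` contains only `v l`, contradiction.  (3) If `β ≠ 0`, (2) for `j, k` and `j, l` gives
`v k + (v k)⁻¹ = v l + (v l)⁻¹`, so `v k = (v l)^±`, contradiction. -/
def St_BET : Prop := ∃ N : ℕ, 0 < N ∧ ∀ u v β : ℂ, RU u → RU v → u ^ N ≠ 1 →
  (∀ k : ℤ, 0 ≤ k → k ≤ 5 → T (v * u ^ (2 * k) + v⁻¹ * u ^ (-(2 * k)) + β)) → β = 0

/-- [TST] Finitely many vanishing cycles of the free group suffice. -/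
def St_TST : Prop := ∀ n : ℕ, ∃ L : Finset (FreeGroup (Fin n)),
  (∀ w ∈ L, IsVanishing FreeGroup.of w) ∧
  ∀ ρ : FreeGroup (Fin n) →* GL (Fin 2) ℂ,
    (∀ w ∈ L, Quasi (ρ w : Matrix (Fin 2) (Fin 2) ℂ)) →
    ∀ w, IsVanishing FreeGroup.of w → Quasi (ρ w : Matrix (Fin 2) (Fin 2) ℂ)

/-- The theorem H2 with a finite test set. -/
def St_Fin : Prop :=
  ∀ n : ℕ, 4 ≤ n → ∃ L : Finset (FreeGroup (Fin n)), (∀ w ∈ L, IsVanishing FreeGroup.of w) ∧
  ∀ (G : Type) [Group G] (c : Fin n → G) (ρ : G →* GL (Fin 2) ℂ),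
    Subgroup.closure (Set.range c) = ⊤ →
    (∀ w ∈ L, Quasi (ρ (FreeGroup.lift c w) : Matrix (Fin 2) (Fin 2) ℂ)) →
    (∀ x, Quasi (ρ x : Matrix (Fin 2) (Fin 2) ℂ)) ∧
    {χ : G → ℂ | ∃ φ : G ≃* G,
      χ = fun x => (ρ (φ x) : Matrix (Fin 2) (Fin 2) ℂ).trace}.Finite ∧
    (CRed ρ → Finite ρ.range)

end Pool.Agent.H2T
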