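import Pool.Agent.H2T.Unb

/-!
# A finite test set in rank two: the test set
-/

set_option autoImplicit false

namespace Pool.Agent.H2T

open Matrix
open Pool.Agent.H2R (RU M2 SL cm cm_mul cm_one cm_inv cm_det cm_injective Quasi IsVanishing
  Twisted root_eq quasi_of)

/-! ### Diagonalization -/

theorem exists_eigen {A : M2} {z : ℂ} (h : z ^ 2 - A.trace * z + A.det = 0) :
    ∃ v : Fin 2 → ℂ, v ≠ 0 ∧ A *ᵥ v = z • v := by
  have h1 : (A - scalar (Fin 2) z).det = 0 := by
    rw [Matrix.det_fin_two]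
    rw [Matrix.det_fin_two, Matrix.trace_fin_two] at h
    simp only [Matrix.sub_apply, Matrix.scalar_apply, Matrix.diagonal_apply_eq, ne_eq, zero_ne_one,
      one_ne_zero, not_false_eq_true, Matrix.diagonal_apply_ne]
    linear_combination h
  obtain ⟨v, hv, h2⟩ := Matrix.exists_mulVec_eq_zero_iff.2 h1
  refine ⟨v, hv, ?_⟩
  rw [Matrix.sub_mulVec, sub_eq_zero] at h2
  rw [h2]
  ext i
  simp [Matrix.scalar_apply, Matrix.mulVec_diagonal]

theorem exists_conj (X : SL) (u : ℂˣ) (hu : (u : ℂ) ^ 2 ≠ 1)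
    (ht : (cm X).trace = (u : ℂ) + (u : ℂ)⁻¹) :
    ∃ φ : SL →* SL, (∀ Y, (cm (φ Y)).trace = (cm Y).trace) ∧ φ X = dg u := by
  have hu0 : (u : ℂ) ≠ 0 := u.ne_zero
  have hui : (u : ℂ) * (u : ℂ)⁻¹ = 1 := mul_inv_cancel₀ hu0
  have hne : (u : ℂ) - (u : ℂ)⁻¹ ≠ 0 := by
    intro h
    apply hu
    linear_combination (u : ℂ) * h + hui
  obtain ⟨v, hv, hv'⟩ := exists_eigen (A := cm X) (z := (u : ℂ)) (by
    rw [ht, cm_det]
    linear_combination -hui)
  obtain ⟨w, hw, hw'⟩ := exists_eigen (A := cm X) (z := (u : ℂ)⁻¹) (by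
    rw [ht, cm_det]
    linear_combination -hui)
  have v0 := congrFun hv' 0
  have v1 := congrFun hv' 1
  have w0 := congrFun hw' 0
  have w1 := congrFun hw' 1
  simp only [Matrix.mulVec, dotProduct, Fin.sum_univ_two, Pi.smul_apply, smul_eq_mul] at v0 v1 w0 w1
  have hdet : v 0 * w 1 - w 0 * v 1 ≠ 0 := by
    intro h
    have k1 : ((u : ℂ) - (u : ℂ)⁻¹) * (v 1 * w 1) = 0 := by
      linear_combination (-w 1) * v1 + v 1 * w1 + cm X 1 0 * h
    have k2 : ((u : ℂ) - (u : ℂ)⁻¹) * (v 0 * w 0) = 0 := by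
      linear_combination (-w 0) * v0 + v 0 * w0 - cm X 0 1 * h
    have k3 := (mul_eq_zero.1 k1).resolve_left hne
    have k4 := (mul_eq_zero.1 k2).resolve_left hne
    rcases mul_eq_zero.1 k3 with h1 | h1
    · have h0 : v 0 ≠ 0 := by
        intro h0
        apply hv
        funext i
        fin_cases i
        · exact h0
        · exact h1
      have h2 := (mul_eq_zero.1 k4).resolve_left h0
      rw [h2, zero_mul, sub_zero] at h
      have h3 := (mul_eq_zero.1 h).resolve_left h0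
      apply hw
      funext i
      fin_cases i
      · exact h2
      · exact h3
    · have h0 : w 0 ≠ 0 := by
        intro h0
        apply hw
        funext i
        fin_cases i
        · exact h0
        · exact h1
      have h2 := (mul_eq_zero.1 k4).resolve_right h0
      rw [h2, zero_mul, zero_sub, neg_eq_zero] at h
      have h3 := (mul_eq_zero.1 h).resolve_left h0
      apply hv
      funext i
      fin_cases i
      · exact h2
      · exact h3
  let P : GL (Fin 2) ℂ := Matrix.GeneralLinearGroup.mkOfDetNeZero !![v 0, w 0; v 1, w 1] (by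
    rw [Matrix.det_fin_two]
    exact hdet)
  have hP : (P : M2) = !![v 0, w 0; v 1, w 1] := rfl
  have hPi : ((P⁻¹ : GL (Fin 2) ℂ) : M2) * (P : M2) = 1 := by
    rw [← Units.val_mul, inv_mul_cancel, Units.val_one]
  have hPi' : (P : M2) * ((P⁻¹ : GL (Fin 2) ℂ) : M2) = 1 := by
    rw [← Units.val_mul, mul_inv_cancel, Units.val_one]
  refine ⟨{ toFun := fun Y => ⟨((P⁻¹ : GL (Fin 2) ℂ) : M2) * cm Y * (P : M2), by
              rw [Matrix.det_mul, Matrix.det_mul, cm_det, mul_one, ← Matrix.det_mul, hPi,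
                Matrix.det_one]⟩
            map_one' := by
              apply cm_injective
              show ((P⁻¹ : GL (Fin 2) ℂ) : M2) * 1 * (P : M2) = 1
              rw [Matrix.mul_one, hPi]
            map_mul' := fun Y Z => by
              apply cm_injective
              show ((P⁻¹ : GL (Fin 2) ℂ) : M2) * (cm Y * cm Z) * (P : M2) =
                (((P⁻¹ : GL (Fin 2) ℂ) : M2) * cm Y * (P : M2)) *
                (((P⁻¹ : GL (Fin 2) ℂ) : M2) * cm Z * (P : M2))
              calc ((P⁻¹ : GL (Fin 2) ℂ) : M2) * (cm Y * cm Z) * (P : M2) =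
                  ((P⁻¹ : GL (Fin 2) ℂ) : M2) * cm Y *
                    ((P : M2) * ((P⁻¹ : GL (Fin 2) ℂ) : M2)) * cm Z * (P : M2) := by
                    rw [hPi', Matrix.mul_one]
                    simp only [Matrix.mul_assoc]
                _ = _ := by simp only [Matrix.mul_assoc] }, ?_, ?_⟩
  · intro Y
    show (((P⁻¹ : GL (Fin 2) ℂ) : M2) * cm Y * (P : M2)).trace = (cm Y).trace
    rw [Matrix.trace_mul_comm, ← Matrix.mul_assoc, hPi', Matrix.one_mul]
  · apply cm_injective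
    show ((P⁻¹ : GL (Fin 2) ℂ) : M2) * cm X * (P : M2) = cm (dg u)
    have h1 : cm X * (P : M2) = (P : M2) * cm (dg u) := by
      rw [hP, cm_dg, Units.val_inv_eq_inv_val]
      ext i j
      rw [Matrix.mul_apply, Matrix.mul_apply, Fin.sum_univ_two, Fin.sum_univ_two]
      fin_cases i <;> fin_cases j
      · show cm X 0 0 * v 0 + cm X 0 1 * v 1 = v 0 * (u : ℂ) + w 0 * 0
        linear_combination v0
      · show cm X 0 0 * w 0 + cm X 0 1 * w 1 = v 0 * 0 + w 0 * (u : ℂ)⁻¹
        linear_combination w0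
      · show cm X 1 0 * v 0 + cm X 1 1 * v 1 = v 1 * (u : ℂ) + w 1 * 0
        linear_combination v1
      · show cm X 1 0 * w 0 + cm X 1 1 * w 1 = v 1 * 0 + w 1 * (u : ℂ)⁻¹
        linear_combination w1
    rw [Matrix.mul_assoc, h1, ← Matrix.mul_assoc, hPi, Matrix.one_mul]

/-! ### The number of moves -/

theorem core (hDIC : St_DIC) (hBET : St_BET) (n : ℕ) : ∃ D : ℕ, ∀ (F : Type) [Group F]
    (r : F →* SL) (A : ℕ → F), Hs n A = ⊤ → Hy n r A D → ∀ d, Hy n r A d := by
  obtain ⟨N1, hN1, hdic⟩ := hDIC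
  obtain ⟨N2, hN2, hbet⟩ := hBET
  let N := 2 * (N1 * N2)
  have hN : 0 < N := Nat.mul_pos two_pos (Nat.mul_pos hN1 hN2)
  have hdic' : DicN N := by
    intro u p s hu huN
    refine hdic u p s hu fun h => huN ?_
    show u ^ (2 * (N1 * N2)) = 1
    rw [show 2 * (N1 * N2) = N1 * (2 * N2) by ring, pow_mul, h, one_pow]
  have hbet' : BetN N := by
    intro u v β hu hv huN
    refine hbet u v β hu hv fun h => huN ?_
    show u ^ (2 * (N1 * N2)) = 1
    rw [show 2 * (N1 * N2) = N2 * (2 * N1) by ring, pow_mul, h, one_pow]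
  refine ⟨(Phi n N).ncard + (2 * n + (3 * n + 8)), fun F _ r A hA hHy => ?_⟩
  by_cases hb : ∀ B ∈ S n A (Phi n N).ncard, ∀ i j, i < j → j ≤ n → tq r (B i) (B j) ∈ TN N
  · intro d B hB i j hij hj
    obtain ⟨w, hw, h⟩ := bounded hN r A hb d B hB i (by omega) j hj
    exact ⟨w, ⟨N, hN, hw⟩, h⟩
  · push Not at hb
    obtain ⟨B, hB, i, j, hij, hj, hnot⟩ := hb
    obtain ⟨w, hw, h⟩ := hHy B (S_mono hB (by omega)) i j hij hj
    have hwN : w ^ N ≠ 1 := fun h' => hnot ⟨w, h', h⟩
    obtain ⟨C, hC, h0, h1, -⟩ := bring_two (n := n) 0 i j B (Nat.zero_le _) hij hj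
    rw [zero_add] at h1
    let u : ℂˣ := Units.mk0 w hw.ne_zero
    have hu2 : (u : ℂ) ^ 2 ≠ 1 := by
      intro h'
      apply hwN
      show (u : ℂ) ^ (2 * (N1 * N2)) = 1
      rw [pow_mul, h', one_pow]
    obtain ⟨φ, hφ, hφu⟩ := exists_conj (r ((C 0)⁻¹ * C 1)) u hu2 (by
      rw [h0, h1]
      exact h)
    have htq : ∀ x y, tq (φ.comp r) x y = tq r x y := fun x y => hφ _
    have hHs : Hs n C = ⊤ := by
      have h2 : Hs n A ≤ Hs n B := Hs_S hB
      have h3 : Hs n B ≤ Hs n C := Hs_S hC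
      rw [hA] at h2
      exact top_le_iff.1 (h2.trans h3)
    have hHyC : Hy n (φ.comp r) C (3 * n + 8) := by
      intro E hE i' j' hij' hj'
      rw [htq]
      refine hHy E ?_ i' j' hij' hj'
      have h2 := S_trans hC hE
      exact S_trans hB h2
    have hn : 0 < n := by omega
    have hall := large hdic' hbet' hn (φ.comp r) C hHs u hw hwN hφu hHyC
    intro d E hE i' j' hij' hj'
    have := hall ((E i')⁻¹ * E j')
    rw [MonoidHom.comp_apply, hφ] at this
    exact this

/-! ### The free group -/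

/-- the products of the free generators -/
def A0 (n : ℕ) : ℕ → FreeGroup (Fin n)
  | 0 => 1
  | i + 1 => A0 n i * if h : i < n then FreeGroup.of ⟨i, h⟩ else 1

theorem ch_A0 (n : ℕ) : ch n (A0 n) = FreeGroup.of := by
  funext i
  unfold ch
  rw [A0, dif_pos i.2, inv_mul_cancel_left]

theorem Hs_A0 (n : ℕ) : Hs n (A0 n) = ⊤ := by
  rw [eq_top_iff, ← FreeGroup.closure_range_of, Subgroup.closure_le]
  rintro _ ⟨i, rfl⟩
  rw [← ch_A0]
  exact quot_mem_Hs _ (by omega) (by omega)

theorem T_iff {X : SL} : T (cm X).trace ↔ ∀ z : ℂ, (cm X).charpoly.IsRoot z → RU z := by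
  constructor
  · rintro ⟨w, hw, h⟩ z hz
    have h1 := root_eq hz
    have hw0 := hw.ne_zero
    have hwi : w * w⁻¹ = 1 := mul_inv_cancel₀ hw0
    rw [h, cm_det] at h1
    have h2 : (z - w) * (z - w⁻¹) = 0 := by linear_combination h1 + hwi
    rcases mul_eq_zero.1 h2 with h3 | h3
    · rw [sub_eq_zero.1 h3]
      exact hw
    · rw [sub_eq_zero.1 h3]
      exact hw.inv
  · intro h
    obtain ⟨z, w, hz, hw, ht, hd⟩ := PWT.exists_eigenvalues (cm X)
    rw [cm_det] at hd
    exact ⟨z, h z hz, by rw [ht, eq_inv_of_mul_eq_one_right hd.symm]⟩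

/-- **A finite test set.** -/
theorem thm_TST (hDIC : St_DIC) (hBET : St_BET) : St_TST := by
  intro n
  obtain ⟨D, hD⟩ := core hDIC hBET n
  let V : Set (FreeGroup (Fin n)) :=
    ⋃ B ∈ S n (A0 n) D, ⋃ i ∈ Finset.range (n + 1), ⋃ j ∈ Finset.range (n + 1),
      {w | i < j ∧ w = (B i)⁻¹ * B j}
  have hV : V.Finite := by
    refine (S_finite n (A0 n) D).biUnion fun B _ => ?_
    refine (Finset.finite_toSet _).biUnion fun i _ => ?_
    refine (Finset.finite_toSet _).biUnion fun j _ => ?_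
    exact (Set.finite_singleton ((B i)⁻¹ * B j)).subset fun w hw => hw.2
  have hmem : ∀ w, w ∈ hV.toFinset ↔ ∃ B ∈ S n (A0 n) D, ∃ i j, i < j ∧ j ≤ n ∧
      w = (B i)⁻¹ * B j := by
    intro w
    rw [Set.Finite.mem_toFinset]
    simp only [V, Set.mem_iUnion, Finset.mem_range]
    constructor
    · rintro ⟨B, hB, i, hi, j, hj, hij, rfl⟩
      exact ⟨B, hB, i, j, hij, by omega, rfl⟩
    · rintro ⟨B, hB, i, j, hij, hj, rfl⟩
      exact ⟨B, hB, i, by omega, j, by omega, hij, rfl⟩
  refine ⟨hV.toFinset, ?_, ?_⟩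
  · intro w hw
    obtain ⟨B, hB, i, j, hij, hj, rfl⟩ := (hmem w).1 hw
    have := vanishing_quot hB hij hj
    rwa [ch_A0] at this
  · intro ρ hρ
    obtain ⟨r, χ, hr⟩ := H2R.exists_SL (FreeGroup.of : Fin n → FreeGroup (Fin n)) ρ
    have hlift : ∀ w, FreeGroup.lift (FreeGroup.of : Fin n → FreeGroup (Fin n)) w = w := by
      intro w
      rw [FreeGroup.lift_of_eq_id]
      rfl
    have hr' : ∀ w, (ρ w : M2) = (χ w : ℂ) • cm (r w) := by
      intro w
      have := hr w
      rwa [hlift] at this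
    have hof : ∀ i, FreeGroup.of i ∈ hV.toFinset := by
      intro i
      rw [hmem]
      refine ⟨A0 n, self_mem_S _ _ _, i.1, i.1 + 1, by omega, by omega, ?_⟩
      exact (congrFun (ch_A0 n) i).symm
    have hχ : ∀ w, RU (χ w : ℂ) := by
      intro w
      have hw : w ∈ Subgroup.closure (Set.range (FreeGroup.of : Fin n → FreeGroup (Fin n))) := by
        rw [FreeGroup.closure_range_of]
        exact Subgroup.mem_top w
      induction hw using Subgroup.closure_induction with
      | mem y hy =>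
        obtain ⟨i, rfl⟩ := hy
        have h1 := (hρ _ (hof i)).det
        rw [hr', Matrix.det_smul, cm_det, mul_one, Fintype.card_fin] at h1
        exact RU.of_sq h1
      | one => rw [map_one, Units.val_one]; exact RU.one
      | mul y z _ _ hy hz => rw [map_mul, Units.val_mul]; exact hy.mul hz
      | inv y _ hy =>
        rw [map_inv, Units.val_inv_eq_inv_val]
        exact hy.inv
    have hiff : ∀ w, T (cm (r w)).trace ↔ Quasi (ρ w : M2) := by
      intro w
      have hχ0 : (χ w : ℂ) ≠ 0 := (χ w).ne_zero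
      rw [T_iff]
      constructor
      · intro h z hz
        rw [hr'] at hz
        have h1 := H2R.isRoot_smul hz (χ w : ℂ)⁻¹
        rw [smul_smul, inv_mul_cancel₀ hχ0, one_smul] at h1
        have h2 := (hχ w).mul (h _ h1)
        rw [mul_inv_cancel_left₀ hχ0] at h2
        exact h2
      · intro h z hz
        have h1 := H2R.isRoot_smul hz (χ w : ℂ)
        rw [← hr'] at h1
        have h2 := (hχ w).inv.mul (h _ h1)
        rw [inv_mul_cancel_left₀ hχ0] at h2
        exact h2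
    have hall := hD (FreeGroup (Fin n)) r (A0 n) (Hs_A0 n) (by
      intro B hB i j hij hj
      unfold tq
      rw [hiff]
      exact hρ _ ((hmem _).2 ⟨B, hB, i, j, hij, hj, rfl⟩))
    rintro w ⟨c', hc', i, rfl⟩
    rw [← ch_A0] at hc'
    obtain ⟨d, B, hB, rfl⟩ := S_of_twisted hc'
    rw [← hiff]
    exact hall d B hB i.1 (i.1 + 1) (by omega) (by omega)

/-- twisted chains come from the free group -/
theorem lift_twisted {G : Type*} [Group G] {n : ℕ} {c c' : Fin n → G} (h : Twisted c c') :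
    ∃ c₀, Twisted (FreeGroup.of : Fin n → FreeGroup (Fin n)) c₀ ∧
      c' = fun i => FreeGroup.lift c (c₀ i) := by
  induction h with
  | refl => exact ⟨FreeGroup.of, Twisted.refl, funext fun i => by rw [FreeGroup.lift_apply_of]⟩
  | @twist c' i _ ih =>
    obtain ⟨c₀, h0, rfl⟩ := ih
    exact ⟨H2R.twist i c₀, Twisted.twist i h0, Helper33.RT.twist_map i c₀ (FreeGroup.lift c)⟩
  | @untwist c' i _ ih =>
    obtain ⟨c₀, h0, h⟩ := ih
    rw [← ch_A0] at h0
    obtain ⟨d, B, hB, rfl⟩ := S_of_twisted h0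
    have h1 : Twisted (FreeGroup.of : Fin n → FreeGroup (Fin n)) (ch n (vm i.1 B)) := by
      rw [← ch_A0]
      exact twisted_of_S (S_vm hB i.2)
    refine ⟨_, h1, ?_⟩
    apply Helper33.RT.twist_inj i
    rw [h, Helper33.RT.twist_map i (ch n (vm i.1 B)) (FreeGroup.lift c), ← ch_mv, mv_vm]

/-- H2 with a finite test set. -/
theorem thm_Fin (hTST : St_TST) (hMain : H2R.St_Main) : St_Fin := by
  intro n hn
  obtain ⟨L, hL, h⟩ := hTST n
  refine ⟨L, hL, fun G _ c ρ hc hρ => hMain G n c ρ hn hc ?_⟩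
  rintro _ ⟨c', hc', i, rfl⟩
  obtain ⟨c₀, h0, rfl⟩ := lift_twisted hc'
  exact h (ρ.comp (FreeGroup.lift c)) hρ _ ⟨c₀, h0, i, rfl⟩

end Pool.Agent.H2T
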