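import Pool.Agent.H2T.Alg

/-!
# A finite test set in rank two: an element of large order
-/

set_option autoImplicit false

namespace Pool.Agent.H2T

open Matrix
open Pool.Agent.H2R (RU M2 SL cm cm_mul cm_one cm_inv cm_det cm_injective)

variable {F : Type*} [Group F]

/-- the moves of the first two points -/
theorem rot {n : ℕ} (hn : 0 < n) (A : ℕ → F) (k : ℤ) : ∃ B ∈ S n A k.natAbs,
    B 0 = A 0 * ((A 0)⁻¹ * A 1) ^ k ∧ B 1 = A 0 * ((A 0)⁻¹ * A 1) ^ (k + 1) ∧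
    ∀ i, 2 ≤ i → B i = A i := by
  have hpos : ∀ m : ℕ, ∃ B ∈ S n A m,
      B 0 = A 0 * ((A 0)⁻¹ * A 1) ^ (m : ℤ) ∧ B 1 = A 0 * ((A 0)⁻¹ * A 1) ^ ((m : ℤ) + 1) ∧
      ∀ i, 2 ≤ i → B i = A i := by
    intro m
    induction m with
    | zero =>
      refine ⟨A, self_mem_S n A 0, ?_, ?_, fun _ _ => rfl⟩
      · simp
      · simp
    | succ m ih =>
      obtain ⟨B, hB, h0, h1, h2⟩ := ih
      refine ⟨mv 0 B, S_mv hB hn, ?_, ?_, ?_⟩
      · rw [mv_fst, zero_add, h1]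
        push_cast
        rfl
      · have e := mv_snd 0 B
        rw [zero_add] at e
        rw [e, h0, h1]
        push_cast
        have e1 : ∀ (a h : F) (m : ℤ), a * h ^ (m + 1) * (a * h ^ m)⁻¹ * (a * h ^ (m + 1)) =
            a * h ^ (m + 1 + 1) := by
          intro a h m
          rw [_root_.mul_inv_rev, _root_.zpow_add_one, _root_.zpow_add_one, _root_.zpow_add_one]
          group
        exact e1 _ _ _
      · intro i hi
        rw [mv_ne _ _ (by omega) (by omega), h2 i hi]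
  have hneg : ∀ m : ℕ, ∃ B ∈ S n A m,
      B 0 = A 0 * ((A 0)⁻¹ * A 1) ^ (-(m : ℤ)) ∧ B 1 = A 0 * ((A 0)⁻¹ * A 1) ^ (-(m : ℤ) + 1) ∧
      ∀ i, 2 ≤ i → B i = A i := by
    intro m
    induction m with
    | zero =>
      refine ⟨A, self_mem_S n A 0, ?_, ?_, fun _ _ => rfl⟩
      · simp
      · simp
    | succ m ih =>
      obtain ⟨B, hB, h0, h1, h2⟩ := ih
      refine ⟨vm 0 B, S_vm hB hn, ?_, ?_, ?_⟩
      · have e := vm_fst 0 B
        rw [zero_add] at e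
        rw [e, h0, h1]
        push_cast
        have e1 : ∀ (a h : F) (m : ℤ), a * h ^ (-m) * (a * h ^ (-m + 1))⁻¹ * (a * h ^ (-m)) =
            a * h ^ (-(m + 1)) := by
          intro a h m
          have e2 : -(m + 1) = -m - 1 := by ring
          rw [_root_.mul_inv_rev, e2, _root_.zpow_sub_one, _root_.zpow_add_one]
          group
        exact e1 _ _ _
      · have e := vm_snd 0 B
        rw [zero_add] at e
        rw [e, h0]
        push_cast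
        congr 2
        ring
      · intro i hi
        rw [vm_ne _ _ (by omega) (by omega), h2 i hi]
  rcases Int.natAbs_eq k with h | h
  · obtain ⟨B, hB, h1⟩ := hpos k.natAbs
    rw [← h] at h1
    exact ⟨B, hB, h1⟩
  · obtain ⟨B, hB, h1⟩ := hneg k.natAbs
    rw [← h] at h1
    exact ⟨B, hB, h1⟩

/-- all quotients of points reached with `d` moves have traces in `T` -/
def Hy (n : ℕ) (r : F →* SL) (A : ℕ → F) (d : ℕ) : Prop :=
  ∀ B ∈ S n A d, ∀ i j, i < j → j ≤ n → T (tq r (B i) (B j))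

theorem Hy.sub {n : ℕ} {r : F →* SL} {A B : ℕ → F} {d e : ℕ} (h : Hy n r A (d + e))
    (hB : B ∈ S n A d) : Hy n r B e := fun _ hC => h _ (S_trans hB hC)

theorem Hy.mono {n : ℕ} {r : F →* SL} {A : ℕ → F} {d e : ℕ} (h : Hy n r A d) (hed : e ≤ d) :
    Hy n r A e := fun _ hC => h _ (S_mono hC hed)

section

variable {n : ℕ} {r : F →* SL} {A : ℕ → F}

theorem w_one (h : Hy n r A (n + 7)) {p : ℕ} (hp : 2 ≤ p) (hpn : p ≤ n) {m : ℤ}
    (hm : m.natAbs ≤ 6) :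
    T (cm (r (((A 0)⁻¹ * A 1) ^ m * ((A 0)⁻¹ * A p)))).trace := by
  obtain ⟨B, hB, h0, -, h2⟩ := rot (n := n) (by omega) A (-m)
  have h3 := h B (S_mono hB (by rw [Int.natAbs_neg]; omega)) 0 p (by omega) hpn
  unfold tq at h3
  rw [h0, h2 p hp] at h3
  have e : (A 0 * ((A 0)⁻¹ * A 1) ^ (-m))⁻¹ * A p = ((A 0)⁻¹ * A 1) ^ m * ((A 0)⁻¹ * A p) := by
    rw [_root_.mul_inv_rev, ← _root_.zpow_neg, neg_neg]
    group
  rwa [e] at h3

theorem w_two (h : Hy n r A (n + 7)) {p q : ℕ} (hp : 2 ≤ p) (hpq : p < q) (hqn : q ≤ n) {l : ℤ}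
    (hl : 0 ≤ l) (hl' : l ≤ 5) :
    T (cm (r (((A 0)⁻¹ * A 1) ^ l * ((A 0)⁻¹ * A p) *
      (((A 0)⁻¹ * A 1) ^ l * ((A 0)⁻¹ * A q))))).trace := by
  obtain ⟨B, hB, -, h1, h2⟩ := rot (n := n) (by omega) A (-l - 1)
  obtain ⟨C, hC, k1, k2, k3⟩ := bring (n := n) 2 p B hp (by omega)
  have hD : vm 1 C ∈ S n A (n + 7) := by
    refine S_mono (S_vm (S_trans hB hC) (by omega)) ?_
    omega
  have h3 := h _ hD 1 q (by omega) hqn
  unfold tq at h3
  have e0 := vm_fst 1 C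
  rw [e0, vm_ne _ _ (by omega) (by omega), k3 q hpq, h2 q (by omega), k1, h2 p hp,
    k2 1 (by omega), h1, sub_add_cancel] at h3
  have e : (A 0 * ((A 0)⁻¹ * A 1) ^ (-l) * (A p)⁻¹ * (A 0 * ((A 0)⁻¹ * A 1) ^ (-l)))⁻¹ * A q =
      ((A 0)⁻¹ * A 1) ^ l * ((A 0)⁻¹ * A p) * (((A 0)⁻¹ * A 1) ^ l * ((A 0)⁻¹ * A q)) := by
    rw [_root_.mul_inv_rev, _root_.mul_inv_rev, _root_.mul_inv_rev, ← _root_.zpow_neg, neg_neg]
    group
  rwa [e] at h3

variable {N : ℕ} {u : ℂˣ}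

/-- the dichotomy for `N` -/
def DicN (N : ℕ) : Prop := ∀ u p s : ℂ, RU u → u ^ N ≠ 1 →
  (∀ m : ℤ, -2 ≤ m → m ≤ 3 → T (p * u ^ m + s * u ^ (-m))) →
  (p = 0 ∧ s = 0) ∨ (RU p ∧ p * s = 1)

/-- no constant term for `N` -/
def BetN (N : ℕ) : Prop := ∀ u v β : ℂ, RU u → RU v → u ^ N ≠ 1 →
  (∀ k : ℤ, 0 ≤ k → k ≤ 5 → T (v * u ^ (2 * k) + v⁻¹ * u ^ (-(2 * k)) + β)) → β = 0

theorem typ (hdic : DicN N) (hu : RU (u : ℂ)) (huN : (u : ℂ) ^ N ≠ 1)
    (hh : r ((A 0)⁻¹ * A 1) = dg u) (h : Hy n r A (n + 7)) {p : ℕ} (hp : 2 ≤ p) (hpn : p ≤ n) :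
    Ad (r ((A 0)⁻¹ * A p)) ∨ Dg (r ((A 0)⁻¹ * A p)) := by
  refine hdic u _ _ hu huN fun m hm hm' => ?_
  have h1 := w_one h hp hpn (m := m) (by omega)
  rwa [tr_one r _ u hh] at h1

theorem bet (hbet : BetN N) (hu : RU (u : ℂ)) (huN : (u : ℂ) ^ N ≠ 1)
    (hh : r ((A 0)⁻¹ * A 1) = dg u) (h : Hy n r A (n + 7)) {p q : ℕ} (hp : 2 ≤ p) (hpq : p < q)
    (hqn : q ≤ n) (h1 : Dg (r ((A 0)⁻¹ * A p))) (h2 : Dg (r ((A 0)⁻¹ * A q))) :
    bt (r ((A 0)⁻¹ * A p)) (r ((A 0)⁻¹ * A q)) = 0 := by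
  refine hbet u (cm (r ((A 0)⁻¹ * A p)) 0 0 * cm (r ((A 0)⁻¹ * A q)) 0 0) _ hu
    (h1.1.mul h2.1) huN fun k hk hk' => ?_
  have h3 := w_two h hp hpq hqn hk hk'
  rw [tr_two r _ u hh] at h3
  have e : (cm (r ((A 0)⁻¹ * A p)) 0 0 * cm (r ((A 0)⁻¹ * A q)) 0 0)⁻¹ =
      cm (r ((A 0)⁻¹ * A p)) 1 1 * cm (r ((A 0)⁻¹ * A q)) 1 1 := by
    refine (eq_inv_of_mul_eq_one_right ?_).symm
    linear_combination (cm (r ((A 0)⁻¹ * A q)) 0 0 * cm (r ((A 0)⁻¹ * A q)) 1 1) * h1.2 + h2.2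
  rw [e]
  exact h3

theorem ex_one (hdic : DicN N) (hbet : BetN N) (hu : RU (u : ℂ)) (huN : (u : ℂ) ^ N ≠ 1)
    (hh : r ((A 0)⁻¹ * A 1) = dg u) (h : Hy n r A (3 * n + 8)) {p q : ℕ} (hp : 2 ≤ p)
    (hpq : p < q) (hqn : q ≤ n) (h1 : Dg (r ((A 0)⁻¹ * A p))) (h2 : Ad (r ((A 0)⁻¹ * A q))) :
    cm (r ((A 0)⁻¹ * A p)) 0 1 = 0 ∧ cm (r ((A 0)⁻¹ * A p)) 1 0 = 0 := by
  obtain ⟨C, hC, k1, k2, k3⟩ := bring_two (n := n) 2 p q A hp hpq hqn
  have hD : vm 2 C ∈ S n A (2 * n + 1) := S_vm hC (by omega)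
  have hHy : Hy n r (vm 2 C) (n + 7) := Hy.sub (h.mono (by omega)) hD
  have e0 : vm 2 C 0 = A 0 := by rw [vm_ne _ _ (by omega) (by omega), k3 0 (by omega)]
  have e1 : vm 2 C 1 = A 1 := by rw [vm_ne _ _ (by omega) (by omega), k3 1 (by omega)]
  have e2 : vm 2 C 2 = A p * (A q)⁻¹ * A p := by
    have := vm_fst 2 C
    rw [this, k1, k2]
  have e3 : vm 2 C 3 = A p := by
    have := vm_snd 2 C
    rw [this, k1]
  have hh' : r ((vm 2 C 0)⁻¹ * vm 2 C 1) = dg u := by rw [e0, e1, hh]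
  have t := typ hdic hu huN hh' hHy (p := 2) (by omega) (by omega)
  have b := bet hbet hu huN hh' hHy (p := 2) (q := 3) (by omega) (by omega) (by omega)
  have e4 : r ((vm 2 C 0)⁻¹ * vm 2 C 2) =
      r ((A 0)⁻¹ * A p) * (r ((A 0)⁻¹ * A q))⁻¹ * r ((A 0)⁻¹ * A p) := by
    rw [e0, e2, ← map_inv, ← map_mul, ← map_mul]
    congr 1
    group
  rw [e4] at t b
  rw [e0, e3] at b
  exact mix h1 h2 t fun h3 => by rw [bt_comm]; exact b h3 h1

theorem ex_two (hdic : DicN N) (hbet : BetN N) (hu : RU (u : ℂ)) (huN : (u : ℂ) ^ N ≠ 1)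
    (hh : r ((A 0)⁻¹ * A 1) = dg u) (h : Hy n r A (3 * n + 8)) {p q : ℕ} (hp : 2 ≤ p)
    (hpq : p < q) (hqn : q ≤ n) (h1 : Ad (r ((A 0)⁻¹ * A p))) (h2 : Dg (r ((A 0)⁻¹ * A q))) :
    cm (r ((A 0)⁻¹ * A q)) 0 1 = 0 ∧ cm (r ((A 0)⁻¹ * A q)) 1 0 = 0 := by
  obtain ⟨C, hC, k1, k2, k3⟩ := bring_two (n := n) 2 p q A hp hpq hqn
  have hD : mv 2 C ∈ S n A (2 * n + 1) := S_mv hC (by omega)
  have hHy : Hy n r (mv 2 C) (n + 7) := Hy.sub (h.mono (by omega)) hD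
  have e0 : mv 2 C 0 = A 0 := by rw [mv_ne _ _ (by omega) (by omega), k3 0 (by omega)]
  have e1 : mv 2 C 1 = A 1 := by rw [mv_ne _ _ (by omega) (by omega), k3 1 (by omega)]
  have e2 : mv 2 C 2 = A q := by
    have := mv_fst 2 C
    rw [this, k2]
  have e3 : mv 2 C 3 = A q * (A p)⁻¹ * A q := by
    have := mv_snd 2 C
    rw [this, k1, k2]
  have hh' : r ((mv 2 C 0)⁻¹ * mv 2 C 1) = dg u := by rw [e0, e1, hh]
  have t := typ hdic hu huN hh' hHy (p := 3) (by omega) (by omega)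
  have b := bet hbet hu huN hh' hHy (p := 2) (q := 3) (by omega) (by omega) (by omega)
  have e4 : r ((mv 2 C 0)⁻¹ * mv 2 C 3) =
      r ((A 0)⁻¹ * A q) * (r ((A 0)⁻¹ * A p))⁻¹ * r ((A 0)⁻¹ * A q) := by
    rw [e0, e3, ← map_inv, ← map_mul, ← map_mul]
    congr 1
    group
  rw [e4] at t b
  rw [e0, e2] at b
  exact mix h2 h1 t fun h3 => b h2 h3

end

/-- **An element of large order.** -/
theorem large {n N : ℕ} (hdic : DicN N) (hbet : BetN N) (hn : 0 < n) (r : F →* SL) (A : ℕ → F)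
    (hA : Hs n A = ⊤) (u : ℂˣ) (hu : RU (u : ℂ)) (huN : (u : ℂ) ^ N ≠ 1)
    (hh : r ((A 0)⁻¹ * A 1) = dg u) (h : Hy n r A (3 * n + 8)) (w : F) : T (cm (r w)).trace := by
  -- the reduction to the generators
  have gen : ∀ K : Subgroup SL, (∀ p ≤ n, r ((A 0)⁻¹ * A p) ∈ K) → r w ∈ K := by
    intro K hK
    have h1 : Hs n A ≤ K.comap r := by
      unfold Hs
      rw [Subgroup.closure_le]
      rintro _ ⟨i, j, hi, hj, rfl⟩
      have e : (A i)⁻¹ * A j = ((A 0)⁻¹ * A i)⁻¹ * ((A 0)⁻¹ * A j) := by group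
      rw [SetLike.mem_coe, Subgroup.mem_comap, e, map_mul, map_inv]
      exact K.mul_mem (K.inv_mem (hK i hi)) (hK j hj)
    have h2 : w ∈ Hs n A := by rw [hA]; exact Subgroup.mem_top w
    exact h1 h2
  have e0 : r ((A 0)⁻¹ * A 0) = 1 := by rw [inv_mul_cancel, map_one]
  have ht : ∀ p, 2 ≤ p → p ≤ n → Ad (r ((A 0)⁻¹ * A p)) ∨ Dg (r ((A 0)⁻¹ * A p)) :=
    fun p hp hpn => typ hdic hu huN hh (h.mono (by omega)) hp hpn
  have hb : ∀ p q, 2 ≤ p → p ≤ n → 2 ≤ q → q ≤ n → p ≠ q → Dg (r ((A 0)⁻¹ * A p)) →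
      Dg (r ((A 0)⁻¹ * A q)) → bt (r ((A 0)⁻¹ * A p)) (r ((A 0)⁻¹ * A q)) = 0 := by
    intro p q hp hpn hq hqn hpq h1 h2
    rcases lt_or_gt_of_ne hpq with h3 | h3
    · exact bet hbet hu huN hh (h.mono (by omega)) hp h3 hqn h1 h2
    · rw [bt_comm]
      exact bet hbet hu huN hh (h.mono (by omega)) hq h3 hpn h2 h1
  have hex : ∀ p q, 2 ≤ p → p ≤ n → 2 ≤ q → q ≤ n → Dg (r ((A 0)⁻¹ * A p)) →
      Ad (r ((A 0)⁻¹ * A q)) →
      cm (r ((A 0)⁻¹ * A p)) 0 1 = 0 ∧ cm (r ((A 0)⁻¹ * A p)) 1 0 = 0 := by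
    intro p q hp hpn hq hqn h1 h2
    have hpq : p ≠ q := by
      rintro rfl
      have h3 := h1.1.ne_zero
      exact h3 h2.1
    rcases lt_or_gt_of_ne hpq with h3 | h3
    · exact ex_one hdic hbet hu huN hh h hp h3 hqn h1 h2
    · exact ex_two hdic hbet hu huN hh h hq h3 hpn h2 h1
  have hsmall : ∀ p ≤ n, p = 0 ∨ p = 1 ∨ 2 ≤ p := by omega
  by_cases h1 : ∃ p, 2 ≤ p ∧ p ≤ n ∧ Dg (r ((A 0)⁻¹ * A p)) ∧ cm (r ((A 0)⁻¹ * A p)) 0 1 ≠ 0
  · obtain ⟨p, hp, hpn, hd, hne⟩ := h1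
    have h10 : cm (r ((A 0)⁻¹ * A p)) 1 0 = 0 := (mul_eq_zero.1 hd.off).resolve_left hne
    apply T_of_Up
    apply gen
    intro q hq
    rcases hsmall q hq with rfl | rfl | hq2
    · rw [e0]
      exact Up.one_mem
    · rw [hh]
      exact ⟨rfl, hu⟩
    · by_cases hqp : q = p
      · rw [hqp]
        exact ⟨h10, hd.1⟩
      · rcases ht q hq2 hq with h2 | h2
        · exact absurd (hex p q hp hpn hq2 hq hd h2).1 hne
        · have h3 := hb p q hp hpn hq2 hq (Ne.symm hqp) hd h2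
          unfold bt at h3
          rw [h10, zero_mul, add_zero] at h3
          exact ⟨(mul_eq_zero.1 h3).resolve_left hne, h2.1⟩
  by_cases h2 : ∃ p, 2 ≤ p ∧ p ≤ n ∧ Dg (r ((A 0)⁻¹ * A p)) ∧ cm (r ((A 0)⁻¹ * A p)) 1 0 ≠ 0
  · obtain ⟨p, hp, hpn, hd, hne⟩ := h2
    have h10 : cm (r ((A 0)⁻¹ * A p)) 0 1 = 0 := (mul_eq_zero.1 hd.off).resolve_right hne
    apply T_of_Lo
    apply gen
    intro q hq
    rcases hsmall q hq with rfl | rfl | hq2
    · rw [e0]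
      exact Lo.one_mem
    · rw [hh]
      exact ⟨rfl, hu⟩
    · by_cases hqp : q = p
      · rw [hqp]
        exact ⟨h10, hd.1⟩
      · rcases ht q hq2 hq with h2 | h2
        · exact absurd (hex p q hp hpn hq2 hq hd h2).2 hne
        · have h3 := hb p q hp hpn hq2 hq (Ne.symm hqp) hd h2
          unfold bt at h3
          rw [h10, zero_mul, zero_add] at h3
          exact ⟨(mul_eq_zero.1 h3).resolve_left hne, h2.1⟩
  push Not at h1 h2
  -- monomial matrices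
  have hdiag : ∀ q, 2 ≤ q → q ≤ n → Dg (r ((A 0)⁻¹ * A q)) →
      cm (r ((A 0)⁻¹ * A q)) 0 1 = 0 ∧ cm (r ((A 0)⁻¹ * A q)) 1 0 = 0 ∧
        RU (cm (r ((A 0)⁻¹ * A q)) 0 0) := fun q hq hqn hd =>
    ⟨h1 q hq hqn hd, h2 q hq hqn hd, hd.1⟩
  by_cases h3 : ∃ p, 2 ≤ p ∧ p ≤ n ∧ Ad (r ((A 0)⁻¹ * A p))
  · obtain ⟨p, hp, hpn, ha⟩ := h3
    have hoff := ha.off
    have h01 : cm (r ((A 0)⁻¹ * A p)) 0 1 ≠ 0 := by
      intro h
      rw [h, zero_mul] at hoff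
      exact one_ne_zero (neg_eq_zero.1 hoff.symm)
    have h10 : cm (r ((A 0)⁻¹ * A p)) 1 0 ≠ 0 := by
      intro h
      rw [h, mul_zero] at hoff
      exact one_ne_zero (neg_eq_zero.1 hoff.symm)
    apply T_of_Mo (s := Units.mk0 _ h10)
    apply gen
    intro q hq
    rcases hsmall q hq with rfl | rfl | hq2
    · rw [e0]
      exact Subgroup.one_mem _
    · rw [hh]
      exact Or.inl ⟨rfl, rfl, hu⟩
    · rcases ht q hq2 hq with h4 | h4
      · refine Or.inr ⟨h4.1, h4.2, ?_⟩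
        show RU (cm (r ((A 0)⁻¹ * A p)) 1 0 * cm (r ((A 0)⁻¹ * A q)) 0 1)
        by_cases hqp : q = p
        · rw [hqp, mul_comm, hoff]
          exact ⟨2, two_pos, by norm_num⟩
        · -- the quotient is diagonal
          have h5 : T (tq r (A p) (A q)) := by
            rcases lt_or_gt_of_ne hqp with h6 | h6
            · rw [tq_comm]
              exact h A (self_mem_S n A _) q p h6 hpn
            · exact h A (self_mem_S n A _) p q h6 hq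
          have e5 : (A p)⁻¹ * A q = ((A 0)⁻¹ * A p)⁻¹ * ((A 0)⁻¹ * A q) := by group
          unfold tq at h5
          rw [e5, map_mul, map_inv, Matrix.trace_fin_two, mul_apply2, mul_apply2, inv00, inv01,
            inv10, inv11, ha.1, ha.2, zero_mul, zero_mul, zero_add, add_zero] at h5
          obtain ⟨z, hz, h6⟩ := h5
          have hoq := h4.off
          -- `x + x⁻¹ = z + z⁻¹`
          have hz0 := hz.ne_zero
          have h7 : (-cm (r ((A 0)⁻¹ * A p)) 1 0 * cm (r ((A 0)⁻¹ * A q)) 0 1) *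
              (-cm (r ((A 0)⁻¹ * A p)) 0 1 * cm (r ((A 0)⁻¹ * A q)) 1 0) = 1 := by
            linear_combination (cm (r ((A 0)⁻¹ * A q)) 0 1 * cm (r ((A 0)⁻¹ * A q)) 1 0) * hoff -
              hoq
          set x := -cm (r ((A 0)⁻¹ * A p)) 1 0 * cm (r ((A 0)⁻¹ * A q)) 0 1 with hx
          set y := -cm (r ((A 0)⁻¹ * A p)) 0 1 * cm (r ((A 0)⁻¹ * A q)) 1 0 with hy
          have h8 : (x - z) * (x - z⁻¹) = 0 := by
            have e8 : z * z⁻¹ = 1 := mul_inv_cancel₀ hz0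
            linear_combination x * h6 - h7 + e8
          have h9 : RU x := by
            rcases mul_eq_zero.1 h8 with h | h
            · rw [sub_eq_zero.1 h]
              exact hz
            · rw [sub_eq_zero.1 h]
              exact hz.inv
          have e9 : cm (r ((A 0)⁻¹ * A p)) 1 0 * cm (r ((A 0)⁻¹ * A q)) 0 1 = -1 * x := by
            rw [hx]
            ring
          rw [e9]
          exact RU.mul ⟨2, two_pos, by norm_num⟩ h9
      · exact Or.inl (hdiag q hq2 hq h4)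
  · push Not at h3
    apply T_of_Up
    apply gen
    intro q hq
    rcases hsmall q hq with rfl | rfl | hq2
    · rw [e0]
      exact Up.one_mem
    · rw [hh]
      exact ⟨rfl, hu⟩
    · rcases ht q hq2 hq with h4 | h4
      · exact absurd h4 (h3 q hq2 hq)
      · exact ⟨(hdiag q hq2 hq h4).2.1, h4.1⟩

end Pool.Agent.H2T
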